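import Pool.Agent.Wrc.Sym

/-! The theorems of Sym.lean with the hypothesis for the degrees up to `n` only. -/

set_option autoImplicit false

namespace Pool.Agent.Wrc

open MonoidAlgebra Pool.Agent.Wil Pool.Agent.Wnx Pool.Agent.Wpp

theorem young_le (p : ℕ) (k : Type) [Field k] [IsAlgClosed k] (n : ℕ)
    (hS : ∀ m ≤ n, pPrimePart p m.factorial ≤ ssDim k (Equiv.Perm (Fin m))) (f : Fin n → ℕ) :
    pPrimePart p (Nat.card (stab (P := Equiv.Perm (Fin n)) f)) ≤ ssDim k (stab (P := Equiv.Perm (Fin n)) f) := by
  classical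
  let e : stab (P := Equiv.Perm (Fin n)) f ≃*
      ∀ c : {c : ℕ // c ∈ Finset.univ.image f}, Equiv.Perm {i : Fin n // f i = c.1} :=
    MulEquiv.ofBijective (young_res f) (young_bij f)
  have h1 : Nat.card (stab (P := Equiv.Perm (Fin n)) f) =
      ∏ c : {c : ℕ // c ∈ Finset.univ.image f}, (Fintype.card {i : Fin n // f i = c.1}).factorial := by
    rw [Nat.card_congr e.toEquiv, Nat.card_pi]
    refine Finset.prod_congr rfl fun c _ => ?_
    rw [Nat.card_perm, Nat.card_eq_fintype_card]
  rw [h1, young_pp, ssDim_congr e]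
  refine le_trans (Finset.prod_le_prod' fun c _ => ?_) (pi_bound k _ _)
  have h2 : Fintype.card {i : Fin n // f i = c.1} ≤ n := (Fintype.card_subtype_le _).trans (le_of_eq (Fintype.card_fin n))
  refine (hS _ h2).trans (le_of_eq ?_)
  exact ssDim_congr (Fintype.equivFin {i : Fin n // f i = c.1}).symm.permCongrHom

theorem wr_sym_le (p : ℕ) [Fact p.Prime] (k H : Type) [Field k] [CharP k p] [Group H] [Finite H] (n : ℕ)
    (hS : ∀ m ≤ n, pPrimePart p m.factorial ≤ ssDim k (Equiv.Perm (Fin m))) :
    pPrimePart p n.factorial * ssDim k H ^ n ≤ ssDim k (Wr H (Equiv.Perm (Fin n)) (Fin n)) := by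
  have hK : CharP (AlgebraicClosure k) p := charP_of_injective_algebraMap (algebraMap k (AlgebraicClosure k)).injective p
  have h := wr_field p k H (Equiv.Perm (Fin n)) (Fin n) (fun f => by
    rw [fld_eq p k (AlgebraicClosure k)]
    exact young_le p (AlgebraicClosure k) n (fun m hm => by rw [← fld_eq p k (AlgebraicClosure k)]; exact hS m hm) f)
  rwa [Nat.card_perm, Nat.card_eq_fintype_card, Fintype.card_fin] at h

private theorem bdd_index (n : ℕ) : (alternatingGroup (Fin n)).index = 1 ∨
    (alternatingGroup (Fin n)).index = 2 := by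
  rcases subsingleton_or_nontrivial (Fin n) with h | h
  · exact Or.inl alternatingGroup.index_eq_one
  · exact Or.inr alternatingGroup.index_eq_two

private theorem bdd_pp {p i : ℕ} (hpp : p.Prime) (hp : p ≠ 2) (hi : i = 1 ∨ i = 2) :
    pPrimePart p i = i := by
  unfold pPrimePart
  have h1 : i.factorization p = 0 := by
    apply Nat.factorization_eq_zero_of_not_dvd
    intro h2
    rcases hi with rfl | rfl
    · exact hpp.one_lt.ne' (Nat.dvd_one.1 h2)
    · exact hp ((Nat.prime_dvd_prime_iff_eq hpp Nat.prime_two).1 h2)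
  rw [h1, pow_zero, Nat.div_one]

theorem wr_alt_le (p : ℕ) [Fact p.Prime] (hp : p ≠ 2) (k H : Type) [Field k] [CharP k p] [Group H] [Finite H] (n : ℕ)
    (hS : ∀ m ≤ n, pPrimePart p m.factorial ≤ ssDim k (Equiv.Perm (Fin m))) :
    pPrimePart p (Nat.card (alternatingGroup (Fin n))) * ssDim k H ^ n ≤
      ssDim k (Wr H (alternatingGroup (Fin n)) (Fin n)) := by
  classical
  have hpp : p.Prime := Fact.out
  have fG : Finite (Wr H (Equiv.Perm (Fin n)) (Fin n)) :=
    Finite.of_equiv _ (SemidirectProduct.equivProd (φ := act H (Equiv.Perm (Fin n)) (Fin n))).symm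
  have fA : Finite (Wr H (alternatingGroup (Fin n)) (Fin n)) :=
    Finite.of_equiv _
      (SemidirectProduct.equivProd (φ := act H (alternatingGroup (Fin n)) (Fin n))).symm
  let N : Subgroup (Wr H (Equiv.Perm (Fin n)) (Fin n)) :=
    (alternatingGroup (Fin n)).comap SemidirectProduct.rightHom
  have hN : N.Normal := Subgroup.Normal.comap inferInstance _
  have hidx : N.index = (alternatingGroup (Fin n)).index :=
    Subgroup.index_comap_of_surjective _ SemidirectProduct.rightHom_surjective
  let F : Wr H (alternatingGroup (Fin n)) (Fin n) →* Wr H (Equiv.Perm (Fin n)) (Fin n) :=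
    SemidirectProduct.map (MonoidHom.id _) (alternatingGroup (Fin n)).subtype (by
      intro g
      ext h ω
      rfl)
  have hFinj : Function.Injective F := by
    intro a b hab
    have h1 : (F a).left = (F b).left := by rw [hab]
    have h2 : (F a).right = (F b).right := by rw [hab]
    exact SemidirectProduct.ext h1 (Subtype.ext h2)
  have hFr : F.range = N := by
    ext g
    constructor
    · rintro ⟨a, rfl⟩
      exact a.right.2
    · intro hg
      exact ⟨⟨g.left, ⟨g.right, hg⟩⟩, rfl⟩
  have hcong : ssDim k N = ssDim k (Wr H (alternatingGroup (Fin n)) (Fin n)) := by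
    rw [← hFr]
    exact (ssDim_congr (MonoidHom.ofInjective hFinj)).symm
  have h1 := ssDim_le_index (k := k) N
  rw [hidx, hcong] at h1
  have h2 := wr_sym_le p k H n hS
  have h3 : n.factorial = (alternatingGroup (Fin n)).index * Nat.card (alternatingGroup (Fin n)) := by
    rw [Subgroup.index_mul_card, Nat.card_perm, Nat.card_eq_fintype_card, Fintype.card_fin]
  rw [h3, pPrimePart_mul, bdd_pp hpp hp (bdd_index n)] at h2
  have h4 : 0 < (alternatingGroup (Fin n)).index := by
    rcases bdd_index n with h5 | h5 <;> omega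
  have h5 := h2.trans h1
  rw [mul_assoc] at h5
  exact Nat.le_of_mul_le_mul_left h5 h4

end Pool.Agent.Wrc
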