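import Pool.Agent.Wil.Basic
import Pool.Agent.Wnx.Alg

/-! `ssDim` does not depend on the field. -/

set_option autoImplicit false

namespace Pool.Agent.Wrc

open MonoidAlgebra Pool.Agent.Wil Pool.Agent.Wnx

-- BEGIN fld_down
private theorem flddown_smul (k K G : Type) [Field k] [Field K] [Algebra k K] [Group G] (c : k) (x : MonoidAlgebra k G) :
    MonoidAlgebra.mapRingHom G (algebraMap k K) (c • x) = algebraMap k K c • MonoidAlgebra.mapRingHom G (algebraMap k K) x := by
  induction x using MonoidAlgebra.induction_linear with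
  | zero => rw [smul_zero, map_zero, smul_zero]
  | add a b ha hb => rw [smul_add, map_add, map_add, ha, hb, smul_add]
  | single g a =>
    rw [MonoidAlgebra.smul_single, MonoidAlgebra.mapRingHom_single, MonoidAlgebra.mapRingHom_single, MonoidAlgebra.smul_single,
      smul_eq_mul, smul_eq_mul, map_mul]

private theorem flddown_mul (k K G : Type) [Field k] [Field K] [Algebra k K] [Group G] (S T U : Set (MonoidAlgebra k G))
    (h : ∀ x ∈ S, ∀ y ∈ T, x * y ∈ U) (x y : MonoidAlgebra K G)
    (hx : x ∈ Submodule.span K (MonoidAlgebra.mapRingHom G (algebraMap k K) '' S))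
    (hy : y ∈ Submodule.span K (MonoidAlgebra.mapRingHom G (algebraMap k K) '' T)) :
    x * y ∈ Submodule.span K (MonoidAlgebra.mapRingHom G (algebraMap k K) '' U) := by
  induction hx using Submodule.span_induction with
  | mem x hx =>
    obtain ⟨s, hs, rfl⟩ := hx
    induction hy using Submodule.span_induction with
    | mem y hy =>
      obtain ⟨t, ht, rfl⟩ := hy
      rw [← map_mul]
      exact Submodule.subset_span ⟨s * t, h s hs t ht, rfl⟩
    | zero => rw [mul_zero]; exact Submodule.zero_mem _
    | add a b _ _ ha hb => rw [mul_add]; exact Submodule.add_mem _ ha hb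
    | smul c a _ ha => rw [mul_smul_comm]; exact Submodule.smul_mem _ c ha
  | zero => rw [zero_mul]; exact Submodule.zero_mem _
  | add a b _ _ ha hb => rw [add_mul]; exact Submodule.add_mem _ ha hb
  | smul c a _ ha => rw [smul_mul_assoc]; exact Submodule.smul_mem _ c ha

private theorem flddown_top (k K G : Type) [Field k] [Field K] [Algebra k K] [Group G] (x : MonoidAlgebra K G) :
    x ∈ Submodule.span K (MonoidAlgebra.mapRingHom G (algebraMap k K) '' Set.univ) := by
  induction x using MonoidAlgebra.induction_linear with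
  | zero => exact Submodule.zero_mem _
  | add a b ha hb => exact Submodule.add_mem _ ha hb
  | single g c =>
    have h1 : (single g c : MonoidAlgebra K G) = c • MonoidAlgebra.mapRingHom G (algebraMap k K) (single g 1) := by
      simp [MonoidAlgebra.smul_single]
    rw [h1]
    exact Submodule.smul_mem _ _ (Submodule.subset_span ⟨_, Set.mem_univ _, rfl⟩)

private theorem flddown_jac (k K G : Type) [Field k] [Field K] [Algebra k K] [Group G] [Finite G]
    (j : MonoidAlgebra k G) (hj : j ∈ Ring.jacobson (MonoidAlgebra k G)) :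
    MonoidAlgebra.mapRingHom G (algebraMap k K) j ∈ Ring.jacobson (MonoidAlgebra K G) := by
  set J : Ideal (MonoidAlgebra k G) := Ring.jacobson (MonoidAlgebra k G) with hJ
  set φ := MonoidAlgebra.mapRingHom G (algebraMap k K) with hφ
  obtain ⟨n, hn⟩ := IsArtinianRing.isNilpotent_jacobson_bot (R := MonoidAlgebra k G)
  rw [Ideal.jacobson_bot] at hn
  let I : Ideal (MonoidAlgebra K G) :=
    { carrier := {x | x ∈ Submodule.span K (φ '' (J : Set (MonoidAlgebra k G)))}
      add_mem' := fun {a b} ha hb => Submodule.add_mem (Submodule.span K (φ '' (J : Set (MonoidAlgebra k G)))) ha hb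
      zero_mem' := (Submodule.zero_mem _ : (0 : MonoidAlgebra K G) ∈ Submodule.span K (φ '' (J : Set (MonoidAlgebra k G))))
      smul_mem' := fun c x hx =>
        flddown_mul k K G Set.univ J J (fun a _ b hb => J.mul_mem_left a hb) c x (flddown_top k K G c) hx }
  have hp : ∀ (x : MonoidAlgebra K G), x ∈ Submodule.span K (φ '' (J : Set (MonoidAlgebra k G))) → ∀ m : ℕ,
      x ^ m ∈ Submodule.span K (φ '' ((J ^ m : Ideal (MonoidAlgebra k G)) : Set (MonoidAlgebra k G))) := by
    intro x hx m
    induction m with
    | zero =>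
      have h1 : ((J ^ 0 : Ideal (MonoidAlgebra k G)) : Set (MonoidAlgebra k G)) = Set.univ := by
        rw [Submodule.pow_zero, Ideal.one_eq_top]; rfl
      rw [h1]
      exact flddown_top k K G _
    | succ m ih =>
      rw [pow_succ]
      refine flddown_mul k K G _ _ _ ?_ (x ^ m) x ih hx
      intro a ha b hb
      rw [Submodule.pow_succ]
      exact Ideal.mul_mem_mul ha hb
  have hI : I ≤ Ring.jacobson (MonoidAlgebra K G) := by
    refine nil_le_jacobson I ?_
    intro x hx
    refine ⟨n, ?_⟩
    have h1 := hp x hx n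
    rw [hn] at h1
    have h2 : φ '' ((0 : Ideal (MonoidAlgebra k G)) : Set (MonoidAlgebra k G)) = {0} := by
      have h3 : ((0 : Ideal (MonoidAlgebra k G)) : Set (MonoidAlgebra k G)) = {0} := rfl
      rw [h3, Set.image_singleton, map_zero]
    rw [h2, Submodule.span_zero_singleton] at h1
    exact (Submodule.mem_bot K).1 h1
  exact hI (Submodule.subset_span ⟨j, hj, rfl⟩)

/-- PROOF. Let `φ : k[G] → K[G]` be `MonoidAlgebra.mapRangeRingHom` (or `mapRingHom`) of `algebraMap k K`. Choose `c_1, .., c_s` in `k[G]`, `s = ssDim k G`, whose classes are a basis of `k[G] ⧸ J`. For `j ∈ J = Ring.jacobson k[G]` (nilpotent two-sided ideal, `IsArtinianRing.isNilpotent_jacobson_bot` or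
`isNilpotent_jacobson`) all elements `∑ x_i φ(j_i) y_i` (`x_i, y_i ∈ K[G]`, `j_i ∈ J`) form a nilpotent two-sided ideal of `K[G]` (elements of `K` are central, `K[G] = K • φ(k[G])`), so `φ(J) ⊆ Ring.jacobson K[G]` (`nil_le_jacobson`, Wil/Basic.lean). Every `single g 1 = φ (single g 1)` is a `K`-combination of the `φ(c_i)` modulo `φ(J)`,
so the classes of the `φ(c_i)` span `K[G] ⧸ J(K[G])`: `finrank_le_of_span` (Wil/Basic.lean) or `finrank_range_le_card`. -/
theorem fld_down (k K G : Type) [Field k] [Field K] [Algebra k K] [Group G] [Finite G] : ssDim K G ≤ ssDim k G := by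
  obtain ⟨v, hv⟩ := exists_span (k := k) (V := MonoidAlgebra k G) ((Ring.jacobson (MonoidAlgebra k G)).restrictScalars k)
  have h1 : Submodule.span K (Set.range fun i => MonoidAlgebra.mapRingHom G (algebraMap k K) (v i)) ⊔
      (Ring.jacobson (MonoidAlgebra K G)).restrictScalars K = ⊤ := by
    rw [eq_top_iff]
    intro x _
    have hx := flddown_top k K G x
    refine (Submodule.span_le.2 ?_) hx
    rintro _ ⟨y, -, rfl⟩
    have hy : y ∈ Submodule.span k (Set.range v) ⊔ (Ring.jacobson (MonoidAlgebra k G)).restrictScalars k := by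
      rw [hv]; trivial
    obtain ⟨a, ha, b, hb, rfl⟩ := Submodule.mem_sup.1 hy
    clear hy
    rw [map_add]
    refine Submodule.add_mem _ (Submodule.mem_sup_left ?_) (Submodule.mem_sup_right ?_)
    · induction ha using Submodule.span_induction with
      | mem x hx =>
        obtain ⟨i, rfl⟩ := hx
        exact Submodule.subset_span ⟨i, rfl⟩
      | zero => rw [map_zero]; exact Submodule.zero_mem _
      | add a b _ _ ha hb => rw [map_add]; exact Submodule.add_mem _ ha hb
      | smul c a _ ha => rw [flddown_smul]; exact Submodule.smul_mem _ _ ha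
    · exact flddown_jac k K G b hb
  have h2 := finrank_le_of_span (k := K) _ _ h1
  rw [Fintype.card_fin] at h2
  exact h2
-- END fld_down

-- BEGIN ten_ss
/-- The case of a finite field. -/
private theorem tss_field (p : ℕ) [Fact p.Prime] (K F : Type) [Field K] [Algebra (ZMod p) K] [Field F] [Algebra (ZMod p) F]
    [Finite F] : IsSemisimpleRing (TensorProduct (ZMod p) K F) := by
  have : Module.Finite (ZMod p) F := Module.Finite.of_finite
  have : Algebra.FormallyUnramified (ZMod p) F := Algebra.FormallyUnramified.of_isSeparable (ZMod p) F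
  have : Algebra.FormallyUnramified K (TensorProduct (ZMod p) K F) := inferInstance
  have : Module.Finite K (TensorProduct (ZMod p) K F) := inferInstance
  have : IsReduced (TensorProduct (ZMod p) K F) := Algebra.FormallyUnramified.isReduced_of_field K _
  have : IsArtinianRing (TensorProduct (ZMod p) K F) := IsArtinianRing.of_finite K _
  exact IsArtinianRing.isSemisimpleRing_of_isReduced _

/-- The case of a finite division ring. -/
private theorem tss_div (p : ℕ) [Fact p.Prime] (K D : Type) [Field K] [Algebra (ZMod p) K] [DivisionRing D]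
    [Algebra (ZMod p) D] [Finite D] : IsSemisimpleRing (TensorProduct (ZMod p) K D) := by
  letI : Field D := { (inferInstance : DivisionRing D) with mul_comm := (littleWedderburn D).mul_comm }
  exact tss_field p K D

/-- Matrices over a finite division ring. -/
private theorem tss_mat (p : ℕ) [Fact p.Prime] (K D : Type) [Field K] [Algebra (ZMod p) K] [DivisionRing D]
    [Algebra (ZMod p) D] [Finite D] (n : ℕ) :
    IsSemisimpleRing (TensorProduct (ZMod p) K (Matrix (Fin n) (Fin n) D)) := by
  have : IsSemisimpleRing (TensorProduct (ZMod p) K D) := tss_div p K D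
  have e : TensorProduct (ZMod p) K (Matrix (Fin n) (Fin n) D) ≃ₐ[ZMod p] Matrix (Fin n) (Fin n) (TensorProduct (ZMod p) K D) :=
    ((Algebra.TensorProduct.congr AlgEquiv.refl (matrixEquivTensor (Fin n) (ZMod p) D)).trans
      (Algebra.TensorProduct.assoc (ZMod p) (ZMod p) (ZMod p) K D (Matrix (Fin n) (Fin n) (ZMod p))).symm).trans
      (matrixEquivTensor (Fin n) (ZMod p) (TensorProduct (ZMod p) K D)).symm
  exact e.symm.toRingEquiv.isSemisimpleRing

/-- PROOF. Wedderburn (`IsSemisimpleRing.exists_algEquiv_pi_matrix_divisionRing` or the finite form): `B ≃ₐ[ZMod p] ∀ i : Fin n, Matrix (Fin (d i)) (Fin (d i)) (F i)` with `F i` division rings, finite over `ZMod p`, so finite, so fields (`littleWedderburn`). `K ⊗ Matrix m m F ≃ₐ Matrix m m (K ⊗ F)` (`Matrix.kroneckerTMulAlgEquiv`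
or `matrixEquivTensor`-like), `K ⊗ (∀ i, ..) ≃ ∀ i, K ⊗ ..` (`Algebra.TensorProduct.piRight`). `K ⊗ F` is reduced (`F` is separable over the perfect field `ZMod p`: `Algebra.IsSeparable`, `Algebra.FormallyUnramified.isReduced_of_field` after base change) and Artinian commutative, so semisimple
(`IsArtinianRing.isSemisimpleRing_of_isReduced`); matrix rings and finite products of semisimple rings are semisimple, so is `K ⊗ B`. -/
theorem ten_ss (p : ℕ) [Fact p.Prime] (K B : Type) [Field K] [Algebra (ZMod p) K] [Ring B] [Algebra (ZMod p) B] [Finite B]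
    [IsSemisimpleRing B] : IsSemisimpleRing (TensorProduct (ZMod p) K B) := by
  have : Module.Finite (ZMod p) B := Module.Finite.of_finite
  obtain ⟨n, D, d, hD, hA, hF, hd, ⟨e⟩⟩ := IsSemisimpleRing.exists_algEquiv_pi_matrix_divisionRing_finite (ZMod p) B
  have : ∀ i, Finite (D i) := fun i => Module.finite_of_finite (ZMod p)
  have : ∀ i, IsSemisimpleRing (TensorProduct (ZMod p) K (Matrix (Fin (d i)) (Fin (d i)) (D i))) :=
    fun i => tss_mat p K (D i) (d i)
  have f : TensorProduct (ZMod p) K B ≃ₐ[ZMod p] ∀ i, TensorProduct (ZMod p) K (Matrix (Fin (d i)) (Fin (d i)) (D i)) :=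
    (Algebra.TensorProduct.congr AlgEquiv.refl e).trans
      (Algebra.TensorProduct.piRight (ZMod p) (ZMod p) K (fun i => Matrix (Fin (d i)) (Fin (d i)) (D i)))
  exact f.symm.toRingEquiv.isSemisimpleRing
-- END ten_ss

-- BEGIN fld_up
/-- The class of a group element in the scalar extension of the semisimple quotient. -/
private noncomputable def fldup_hom (k K G : Type) [Field k] [Field K] [Algebra k K] [Group G] :
    G →* TensorProduct k K (MonoidAlgebra k G ⧸ Ring.jacobson (MonoidAlgebra k G)) where
  toFun g := TensorProduct.tmul k (1 : K) (Ideal.Quotient.mk (Ring.jacobson (MonoidAlgebra k G)) (single g 1))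
  map_one' := by rw [← MonoidAlgebra.one_def, map_one, Algebra.TensorProduct.one_def]
  map_mul' g h := by
    rw [Algebra.TensorProduct.tmul_mul_tmul, mul_one, ← map_mul, MonoidAlgebra.single_mul_single, mul_one]

private theorem fldup_hom_apply (k K G : Type) [Field k] [Field K] [Algebra k K] [Group G] (g : G) :
    fldup_hom k K G g = TensorProduct.tmul k (1 : K)
      (Ideal.Quotient.mk (Ring.jacobson (MonoidAlgebra k G)) (single g 1)) := rfl

private theorem fldup_surj (k K G : Type) [Field k] [Field K] [Algebra k K] [Group G] :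
    Function.Surjective (MonoidAlgebra.lift K
      (TensorProduct k K (MonoidAlgebra k G ⧸ Ring.jacobson (MonoidAlgebra k G))) G (fldup_hom k K G)) := by
  intro x
  induction x using TensorProduct.induction_on with
  | zero => exact ⟨0, map_zero _⟩
  | add a b ha hb =>
    obtain ⟨x, hx⟩ := ha
    obtain ⟨y, hy⟩ := hb
    exact ⟨x + y, by rw [map_add, hx, hy]⟩
  | tmul a b =>
    obtain ⟨y, rfl⟩ := Ideal.Quotient.mk_surjective b
    induction y using MonoidAlgebra.induction_linear with
    | zero => exact ⟨0, by rw [map_zero, map_zero, TensorProduct.tmul_zero]⟩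
    | add u v hu hv =>
      obtain ⟨x, hx⟩ := hu
      obtain ⟨y, hy⟩ := hv
      exact ⟨x + y, by rw [map_add, hx, hy, map_add, TensorProduct.tmul_add]⟩
    | single g c =>
      refine ⟨single g (c • a), ?_⟩
      have h1 : (single g c : MonoidAlgebra k G) = c • single g 1 := by
        rw [MonoidAlgebra.smul_single, smul_eq_mul, mul_one]
      have h2 : Ideal.Quotient.mk (Ring.jacobson (MonoidAlgebra k G)) (c • single g 1) =
          c • Ideal.Quotient.mk (Ring.jacobson (MonoidAlgebra k G)) (single g 1) := rfl
      rw [MonoidAlgebra.lift_single, fldup_hom_apply, h1, h2, TensorProduct.tmul_smul, TensorProduct.smul_tmul',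
        TensorProduct.smul_tmul', smul_eq_mul, mul_one]

/-- PROOF. `B = (ZMod p)[G] ⧸ Ring.jacobson` is semisimple and finite, `dim B = ssDim (ZMod p) G`. The `K`-algebra homomorphism `K[G] → K ⊗ B`, `single g 1 ↦ 1 ⊗ class of (single g 1)` (`MonoidAlgebra.lift`) is surjective; `K ⊗ B` is semisimple (`ten_ss`), so `ssA K (K ⊗ B) = finrank K (K ⊗ B) = dim B`
(`Module.finrank_baseChange`) and `ssA_surj` (Wnx/Alg.lean). -/
theorem fld_up (p : ℕ) [Fact p.Prime] (K G : Type) [Field K] [Algebra (ZMod p) K] [Group G] [Finite G] :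
    ssDim (ZMod p) G ≤ ssDim K G := by
  have hAf : Finite (MonoidAlgebra (ZMod p) G) := Module.finite_of_finite (ZMod p)
  have hBf : Finite (MonoidAlgebra (ZMod p) G ⧸ Ring.jacobson (MonoidAlgebra (ZMod p) G)) :=
    Finite.of_surjective _ Ideal.Quotient.mk_surjective
  have hBm : Module.Finite (ZMod p) (MonoidAlgebra (ZMod p) G ⧸ Ring.jacobson (MonoidAlgebra (ZMod p) G)) :=
    Module.Finite.of_finite
  have hss : IsSemisimpleRing (TensorProduct (ZMod p) K
      (MonoidAlgebra (ZMod p) G ⧸ Ring.jacobson (MonoidAlgebra (ZMod p) G))) := ten_ss p K _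
  have h1 := ssA_surj (k := K) _ (fldup_surj (ZMod p) K G)
  have h2 : ssA K (TensorProduct (ZMod p) K
      (MonoidAlgebra (ZMod p) G ⧸ Ring.jacobson (MonoidAlgebra (ZMod p) G))) = ssDim (ZMod p) G := by
    have h3 : (Ring.jacobson (TensorProduct (ZMod p) K
      (MonoidAlgebra (ZMod p) G ⧸ Ring.jacobson (MonoidAlgebra (ZMod p) G)))).restrictScalars K = ⊥ := by
      rw [IsSemisimpleRing.jacobson_eq_bot (TensorProduct (ZMod p) K
        (MonoidAlgebra (ZMod p) G ⧸ Ring.jacobson (MonoidAlgebra (ZMod p) G))), Submodule.restrictScalars_bot]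
    rw [ssA, (Submodule.quotEquivOfEqBot _ h3).finrank_eq, Module.finrank_baseChange, ssDim]
    exact (Submodule.Quotient.restrictScalarsEquiv (ZMod p)
      (Ring.jacobson (MonoidAlgebra (ZMod p) G))).finrank_eq.symm
  rw [← h2]
  exact h1
-- END fld_up

theorem fld_eq (p : ℕ) [Fact p.Prime] (k K G : Type) [Field k] [CharP k p] [Field K] [CharP K p] [Group G] [Finite G] :
    ssDim k G = ssDim K G := by
  letI : Algebra (ZMod p) k := ZMod.algebra k p
  letI : Algebra (ZMod p) K := ZMod.algebra K p
  exact le_antisymm ((fld_down (ZMod p) k G).trans (fld_up p K G)) ((fld_down (ZMod p) K G).trans (fld_up p k G))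

end Pool.Agent.Wrc
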