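import Pool.Agent.Wrc.Mn
import Pool.Agent.Wrc.Fld

/-! Symmetric and alternating groups on top. -/

set_option autoImplicit false

namespace Pool.Agent.Wrc

open MonoidAlgebra Pool.Agent.Wil Pool.Agent.Wnx Pool.Agent.Wpp

/-- PROOF. `K = AlgebraicClosure k`, `fld_eq`. -/
theorem wr_field (p : ℕ) [Fact p.Prime] (k H P Ω : Type) [Field k] [CharP k p] [Group H] [Finite H] [Group P] [Finite P]
    [MulAction P Ω] [Finite Ω]
    (hP : ∀ f : Ω → ℕ, pPrimePart p (Nat.card (stab (P := P) f)) ≤ ssDim k (stab (P := P) f)) :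
    pPrimePart p (Nat.card P) * ssDim k H ^ Nat.card Ω ≤ ssDim k (Wr H P Ω) := by
  classical
  have : Fintype Ω := Fintype.ofFinite Ω
  have : Finite (Wr H P Ω) := Finite.of_equiv _ (SemidirectProduct.equivProd (φ := act H P Ω)).symm
  have hK : CharP (AlgebraicClosure k) p := charP_of_injective_algebraMap (algebraMap k (AlgebraicClosure k)).injective p
  have h := wr_closed p (AlgebraicClosure k) H P Ω (fun f => by rw [← fld_eq p k (AlgebraicClosure k)]; exact hP f)
  rw [fld_eq p k (AlgebraicClosure k) H, fld_eq p k (AlgebraicClosure k) (Wr H P Ω), Nat.card_eq_fintype_card (α := Ω)]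
  exact h

-- BEGIN pi_bound
private theorem pi_bound_aux (k : Type) [Field k] [IsAlgClosed k] (I : Type) [Finite I] :
    ∀ (_ : Fintype I) (A : I → Type) (_ : ∀ i, Group (A i)) (_ : ∀ i, Finite (A i)),
      ∏ i, ssDim k (A i) ≤ ssDim k (∀ i, A i) := by
  refine Finite.induction_empty_option (P := fun I : Type => ∀ (_ : Fintype I) (A : I → Type)
    (_ : ∀ i, Group (A i)) (_ : ∀ i, Finite (A i)), ∏ i, ssDim k (A i) ≤ ssDim k (∀ i, A i)) ?_ ?_ ?_ I
  · intro α β e ih _ A _ _
    have _ : Fintype α := Fintype.ofEquiv β e.symm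
    have h1 := ih inferInstance (fun i => A (e i)) inferInstance inferInstance
    have h2 : ∏ i, ssDim k (A (e i)) = ∏ j, ssDim k (A j) := Equiv.prod_comp e (fun j => ssDim k (A j))
    let F : (∀ j, A j) →* (∀ i, A (e i)) :=
      { toFun := fun f i => f (e i)
        map_one' := rfl
        map_mul' := fun _ _ => rfl }
    have hF : Function.Bijective F := by
      constructor
      · intro f g hfg
        funext j
        obtain ⟨i, rfl⟩ := e.surjective j
        exact congrFun hfg i
      · intro g
        refine ⟨Equiv.piCongrLeft A e g, ?_⟩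
        funext i
        exact Equiv.piCongrLeft_apply_apply A e g i
    rw [← h2, ssDim_congr (k := k) (MulEquiv.ofBijective F hF)]
    exact h1
  · intro _ A _ _
    rw [Finset.prod_of_isEmpty]
    have h1 : (Ring.jacobson (MonoidAlgebra k (∀ i, A i))).restrictScalars k ≠ ⊤ := by
      intro h
      have h2 : (1 : MonoidAlgebra k (∀ i, A i)) ∈ (Ring.jacobson (MonoidAlgebra k (∀ i, A i))).restrictScalars k := by
        rw [h]; trivial
      obtain ⟨n, hn⟩ := nilpotent_of_mem_jacobson (A := MonoidAlgebra k (∀ i, A i)) h2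
      rw [one_pow] at hn
      exact one_ne_zero hn
    have _ : Nontrivial (MonoidAlgebra k (∀ i, A i) ⧸ (Ring.jacobson (MonoidAlgebra k (∀ i, A i))).restrictScalars k) :=
      Submodule.Quotient.nontrivial_iff.2 h1
    exact Module.finrank_pos
  · intro J _ ih _ A _ _
    have _ : Fintype J := Fintype.ofFinite J
    have h1 := ih inferInstance (fun j => A (some j)) inferInstance inferInstance
    let F : (∀ i, A i) →* (A none × ∀ j, A (some j)) :=
      { toFun := fun f => (f none, fun j => f (some j))
        map_one' := rfl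
        map_mul' := fun _ _ => rfl }
    have hF : Function.Bijective F := by
      constructor
      · intro f g hfg
        funext i
        cases i with
        | none => exact (Prod.ext_iff.mp hfg).1
        | some j => exact congrFun (Prod.ext_iff.mp hfg).2 j
      · intro g
        exact ⟨fun i => Option.rec g.1 g.2 i, rfl⟩
    have h3 : ∏ i, ssDim k (A i) = ssDim k (A none) * ∏ j, ssDim k (A (some j)) := by
      have h4 := Fintype.prod_option (fun i => ssDim k (A i))
      rw [← h4]
      exact Finset.prod_congr (by ext; simp) (fun _ _ => rfl)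
    rw [h3, ssDim_congr (k := k) (MulEquiv.ofBijective F hF)]
    exact (Nat.mul_le_mul_left _ h1).trans (prod_bound k (A none) (∀ j, A (some j)))

/-- PROOF. Induction on the finite index type (`Finite.induction_empty_option`, or `Fintype` / `Fin n` and an equivalence): `ssDim_congr` (Wil/Rel.lean) along `(∀ i : Option J, A i) ≃* A none × ∀ j, A (some j)`, `prod_bound`; for the empty type `ssDim k (trivial group) ≥ 1` (`ssDim_one_le` of Wnx/Fac.lean, or `ssDim_ge_card` of Wil/Rel.lean). -/
theorem pi_bound (k : Type) [Field k] [IsAlgClosed k] (I : Type) [Fintype I] (A : I → Type) [∀ i, Group (A i)] [∀ i, Finite (A i)] :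
    ∏ i, ssDim k (A i) ≤ ssDim k (∀ i, A i) :=
  pi_bound_aux k I inferInstance A inferInstance inferInstance
-- END pi_bound

-- BEGIN young
/-- The restriction of a permutation which preserves the colours to the fibres. -/
def young_res {n : ℕ} (f : Fin n → ℕ) :
    stab (P := Equiv.Perm (Fin n)) f →* ∀ c : {c : ℕ // c ∈ Finset.univ.image f}, Equiv.Perm {i : Fin n // f i = c.1} where
  toFun g c := (g : Equiv.Perm (Fin n)).subtypePerm (fun x => by
    have h : f ((g : Equiv.Perm (Fin n)) x) = f x := g.2 x
    rw [h])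
  map_one' := by
    funext c
    ext x
    rfl
  map_mul' a b := by
    funext c
    ext x
    rfl

theorem young_bij {n : ℕ} (f : Fin n → ℕ) : Function.Bijective (young_res f) := by
  constructor
  · intro a b hab
    apply Subtype.ext
    apply Equiv.ext
    intro x
    have h1 := congrFun hab ⟨f x, Finset.mem_image_of_mem f (Finset.mem_univ x)⟩
    have h2 := congrArg (fun e : Equiv.Perm {i : Fin n // f i = f x} => ((e ⟨x, rfl⟩ : {i : Fin n // f i = f x}) : Fin n)) h1
    exact h2
  · intro s
    have hm : ∀ x, f x ∈ Finset.univ.image f := fun x => Finset.mem_image_of_mem f (Finset.mem_univ x)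
    have hf : ∀ x, f (s ⟨f x, hm x⟩ ⟨x, rfl⟩ : {i : Fin n // f i = f x}).1 = f x := fun x =>
      (s ⟨f x, hm x⟩ ⟨x, rfl⟩ : {i : Fin n // f i = f x}).2
    have hval : ∀ (c : ℕ) (hc : c ∈ Finset.univ.image f) (x : Fin n) (hx : f x = c),
        ((s ⟨f x, hm x⟩ ⟨x, rfl⟩ : {i : Fin n // f i = f x}).1) = (s ⟨c, hc⟩ ⟨x, hx⟩).1 := by
      intro c hc x hx
      subst hx
      rfl
    have hinj : Function.Injective fun x => (s ⟨f x, hm x⟩ ⟨x, rfl⟩ : {i : Fin n // f i = f x}).1 := by
      intro x y hxy
      have h1 : f x = f y := by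
        rw [← hf x, ← hf y]
        exact congrArg f hxy
      have h2 : (s ⟨f y, hm y⟩ ⟨x, h1⟩).1 = (s ⟨f y, hm y⟩ ⟨y, rfl⟩).1 := by
        rw [← hval (f y) (hm y) x h1]
        exact hxy
      have h3 := (s ⟨f y, hm y⟩).injective (Subtype.ext h2)
      exact congrArg Subtype.val h3
    refine ⟨⟨Equiv.ofBijective _ (Finite.injective_iff_bijective.1 hinj), fun x => hf x⟩, ?_⟩
    funext c
    ext x
    have h4 := hval c.1 c.2 x.1 x.2
    exact congrArg Fin.val h4

theorem young_pp (p : ℕ) {I : Type} (s : Finset I) (a : I → ℕ) :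
    pPrimePart p (∏ i ∈ s, a i) = ∏ i ∈ s, pPrimePart p (a i) := by
  classical
  induction s using Finset.induction_on with
  | empty => simp [pPrimePart]
  | insert i s hi ih => rw [Finset.prod_insert hi, Finset.prod_insert hi, pPrimePart_mul, ih]

/-- PROOF. Let `I = Fin n` be large enough for the values (`I = {c // ∃ i, f i = c}`, the image of `f`, a Fintype, `f' : Fin n → I`, same stabiliser). `stab f ≃* ∀ c : I, Perm {i // f' i = c}` (restrict the permutation to the fibres: `DomMulAct.stabilizerMulEquiv`, or directly `Equiv.Perm.subtypePerm` / `Equiv.Perm.sigmaCongrRight` with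
`Equiv.sigmaFiberEquiv`); `Perm {i // f' i = c} ≃* Perm (Fin (card of the fibre))`. So `|stab f| = ∏ c, (n_c)!`, `pPrimePart` is multiplicative (`pPrimePart_mul`), `pi_bound` and `hS`, `ssDim_congr`. -/
theorem young (p : ℕ) (k : Type) [Field k] [IsAlgClosed k] (n : ℕ)
    (hS : ∀ m, pPrimePart p m.factorial ≤ ssDim k (Equiv.Perm (Fin m))) (f : Fin n → ℕ) :
    pPrimePart p (Nat.card (stab (P := Equiv.Perm (Fin n)) f)) ≤ ssDim k (stab (P := Equiv.Perm (Fin n)) f) := by
  classical
  let e : stab (P := Equiv.Perm (Fin n)) f ≃*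
      ∀ c : {c : ℕ // c ∈ Finset.univ.image f}, Equiv.Perm {i : Fin n // f i = c.1} :=
    MulEquiv.ofBijective (young_res f) (young_bij f)
  have h1 : Nat.card (stab (P := Equiv.Perm (Fin n)) f) =
      ∏ c : {c : ℕ // c ∈ Finset.univ.image f}, (Fintype.card {i : Fin n // f i = c.1}).factorial := by
    rw [Nat.card_congr e.toEquiv, Nat.card_pi]
    refine Finset.prod_congr rfl fun c _ => ?_
    rw [Nat.card_perm, Nat.card_eq_fintype_card]
  rw [h1, young_pp, ssDim_congr e]
  refine le_trans (Finset.prod_le_prod' fun c _ => ?_) (pi_bound k _ _)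
  refine (hS _).trans (le_of_eq ?_)
  exact ssDim_congr (Fintype.equivFin {i : Fin n // f i = c.1}).symm.permCongrHom
-- END young

/-- PROOF. `young`, `fld_eq`, `wr_field`. -/
theorem wr_sym (p : ℕ) [Fact p.Prime] (k H : Type) [Field k] [CharP k p] [Group H] [Finite H] (n : ℕ)
    (hS : ∀ m, pPrimePart p m.factorial ≤ ssDim k (Equiv.Perm (Fin m))) :
    pPrimePart p n.factorial * ssDim k H ^ n ≤ ssDim k (Wr H (Equiv.Perm (Fin n)) (Fin n)) := by
  have hK : CharP (AlgebraicClosure k) p := charP_of_injective_algebraMap (algebraMap k (AlgebraicClosure k)).injective p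
  have h := wr_field p k H (Equiv.Perm (Fin n)) (Fin n) (fun f => by
    rw [fld_eq p k (AlgebraicClosure k)]
    exact young p (AlgebraicClosure k) n (fun m => by rw [← fld_eq p k (AlgebraicClosure k)]; exact hS m) f)
  rwa [Nat.card_perm, Nat.card_eq_fintype_card, Fintype.card_fin] at h

-- BEGIN wr_alt
private theorem wr_alt_index (n : ℕ) : (alternatingGroup (Fin n)).index = 1 ∨
    (alternatingGroup (Fin n)).index = 2 := by
  rcases subsingleton_or_nontrivial (Fin n) with h | h
  · exact Or.inl alternatingGroup.index_eq_one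
  · exact Or.inr alternatingGroup.index_eq_two

private theorem wr_alt_pp {p i : ℕ} (hpp : p.Prime) (hp : p ≠ 2) (hi : i = 1 ∨ i = 2) :
    pPrimePart p i = i := by
  unfold pPrimePart
  have h1 : i.factorization p = 0 := by
    apply Nat.factorization_eq_zero_of_not_dvd
    intro h2
    rcases hi with rfl | rfl
    · exact hpp.one_lt.ne' (Nat.dvd_one.1 h2)
    · exact hp ((Nat.prime_dvd_prime_iff_eq hpp Nat.prime_two).1 h2)
  rw [h1, pow_zero, Nat.div_one]

/-- PROOF. For `n ≤ 1` `alternatingGroup (Fin n)` and `Perm (Fin n)` are trivial: `Nat.card = 1`; use `wr_sym` and `ssDim_congr` for `Wr H (alternatingGroup (Fin n)) (Fin n) ≃* Wr H (Perm (Fin n)) (Fin n)` (or treat `n ≤ 1` like the rest with index `1`). For `n ≥ 2` the homomorphism `SemidirectProduct.map` / `(h, s) ↦ (h, s)` embeds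
`Wr H (alternatingGroup (Fin n)) (Fin n)` in `G = Wr H (Perm (Fin n)) (Fin n)` with image the kernel of `sign ∘ rightHom`, normal of index `2`, so `ssDim k G ≤ 2 * ssDim k (Wr H (alternatingGroup (Fin n)) (Fin n))` (`ssDim_le_index`, Wil/Basic.lean, `ssDim_congr`), and `n! = 2 * |A_n|`, `pPrimePart p 2 = 2` as `p ≠ 2` (`pPrimePart_mul`), `wr_sym`. -/
theorem wr_alt (p : ℕ) [Fact p.Prime] (hp : p ≠ 2) (k H : Type) [Field k] [CharP k p] [Group H] [Finite H] (n : ℕ)
    (hS : ∀ m, pPrimePart p m.factorial ≤ ssDim k (Equiv.Perm (Fin m))) :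
    pPrimePart p (Nat.card (alternatingGroup (Fin n))) * ssDim k H ^ n ≤
      ssDim k (Wr H (alternatingGroup (Fin n)) (Fin n)) := by
  classical
  have hpp : p.Prime := Fact.out
  have fG : Finite (Wr H (Equiv.Perm (Fin n)) (Fin n)) :=
    Finite.of_equiv _ (SemidirectProduct.equivProd (φ := act H (Equiv.Perm (Fin n)) (Fin n))).symm
  have fA : Finite (Wr H (alternatingGroup (Fin n)) (Fin n)) :=
    Finite.of_equiv _
      (SemidirectProduct.equivProd (φ := act H (alternatingGroup (Fin n)) (Fin n))).symm
  let N : Subgroup (Wr H (Equiv.Perm (Fin n)) (Fin n)) :=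
    (alternatingGroup (Fin n)).comap SemidirectProduct.rightHom
  have hN : N.Normal := Subgroup.Normal.comap inferInstance _
  have hidx : N.index = (alternatingGroup (Fin n)).index :=
    Subgroup.index_comap_of_surjective _ SemidirectProduct.rightHom_surjective
  let F : Wr H (alternatingGroup (Fin n)) (Fin n) →* Wr H (Equiv.Perm (Fin n)) (Fin n) :=
    SemidirectProduct.map (MonoidHom.id _) (alternatingGroup (Fin n)).subtype (by
      intro g
      ext h ω
      rfl)
  have hFinj : Function.Injective F := by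
    intro a b hab
    have h1 : (F a).left = (F b).left := by rw [hab]
    have h2 : (F a).right = (F b).right := by rw [hab]
    exact SemidirectProduct.ext h1 (Subtype.ext h2)
  have hFr : F.range = N := by
    ext g
    constructor
    · rintro ⟨a, rfl⟩
      exact a.right.2
    · intro hg
      exact ⟨⟨g.left, ⟨g.right, hg⟩⟩, rfl⟩
  have hcong : ssDim k N = ssDim k (Wr H (alternatingGroup (Fin n)) (Fin n)) := by
    rw [← hFr]
    exact (ssDim_congr (MonoidHom.ofInjective hFinj)).symm
  have h1 := ssDim_le_index (k := k) N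
  rw [hidx, hcong] at h1
  have h2 := wr_sym p k H n hS
  have h3 : n.factorial = (alternatingGroup (Fin n)).index * Nat.card (alternatingGroup (Fin n)) := by
    rw [Subgroup.index_mul_card, Nat.card_perm, Nat.card_eq_fintype_card, Fintype.card_fin]
  rw [h3, pPrimePart_mul, wr_alt_pp hpp hp (wr_alt_index n)] at h2
  have h4 : 0 < (alternatingGroup (Fin n)).index := by
    rcases wr_alt_index n with h5 | h5 <;> omega
  have h5 := h2.trans h1
  rw [mul_assoc] at h5
  exact Nat.le_of_mul_le_mul_left h5 h4
-- END wr_alt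

end Pool.Agent.Wrc
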