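import Pool.Agent.Wrc.Defs

/-! Clifford theory for several representations at once. -/

set_option autoImplicit false

namespace Pool.Agent.Wrc

open MonoidAlgebra Pool.Agent.Wil Pool.Agent.Wnx Pool.Agent.Wpp

-- BEGIN ssA_pi
/-- PROOF. `B x → B x ⧸ J(B x)` gives a surjection of `∀ x, B x` onto `C = ∀ x, B x ⧸ Ring.jacobson (B x)` (an algebra homomorphism), `C` is a finite product of semisimple
rings (`art` of Wnx/Alg: `B x` is Artinian), so it is semisimple and `Ring.jacobson C = ⊥`, `ssA k C = finrank k C = ∑ x, ssA k (B x)` (`Module.finrank_pi_fintype`), and `ssA_surj`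
(Wnx/Alg) says `ssA k C ≤ ssA k (∀ x, B x)`. -/
theorem ssA_pi {k X : Type} [Field k] [Fintype X] (B : X → Type) [∀ x, Ring (B x)] [∀ x, Algebra k (B x)]
    [∀ x, Module.Finite k (B x)] : ∑ x, ssA k (B x) ≤ ssA k (∀ x, B x) := by
  classical
  let F : (∀ x, B x) →ₗ[k] (∀ x, B x ⧸ (Ring.jacobson (B x)).restrictScalars k) :=
    LinearMap.pi fun x => ((Ring.jacobson (B x)).restrictScalars k).mkQ ∘ₗ LinearMap.proj x
  have hF : (Ring.jacobson (∀ x, B x)).restrictScalars k ≤ LinearMap.ker F := by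
    intro z hz
    rw [LinearMap.mem_ker]
    funext x
    have h0 : RingHomSurjective (Pi.evalRingHom B x) := ⟨Function.surjective_eval x⟩
    have h1 : z x ∈ Ring.jacobson (B x) := Ring.le_comap_jacobson (Pi.evalRingHom B x) hz
    exact (Submodule.Quotient.mk_eq_zero _).2 h1
  have hs : Function.Surjective (Submodule.liftQ _ F hF) := by
    intro y
    choose z hz using fun x => Submodule.mkQ_surjective _ (y x)
    refine ⟨Submodule.mkQ _ z, ?_⟩
    funext x
    exact hz x
  have h := LinearMap.finrank_le_finrank_of_surjective hs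
  rw [Module.finrank_pi_fintype] at h
  exact h
-- END ssA_pi

-- BEGIN multi_bound
private theorem multi_bound_one {k G : Type} [Field k] [Group G] [Finite G] (N : Subgroup G) [N.Normal]
    (T : Subgroup G) (hNT : N ≤ T) [Fintype (G ⧸ T)] [DecidableEq (G ⧸ T)] {ι : Type} [Fintype ι] [DecidableEq ι]
    (V : N →* Matrix ι ι k) (ρ : T →* Matrix ι ι k)
    (hρ : ∀ (n : N) (h : (n : G) ∈ T), ρ ⟨(n : G), h⟩ = V n)
    (hV : Submodule.span k (Set.range V) = ⊤)
    (b : G → MonoidAlgebra k N) (h1 : ∀ g, cj N V g⁻¹ (b g) = 1)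
    (h0 : ∀ g g', ¬ (g⁻¹ * g' ∈ T) → cj N V g'⁻¹ (b g) = 0) :
    ∃ F : MonoidAlgebra k G →ₐ[k]
        Matrix (G ⧸ T) (G ⧸ T) (Matrix ι ι (MonoidAlgebra k (T ⧸ N.subgroupOf T))),
      Function.Surjective F ∧ ∀ (m : MonoidAlgebra k N) (c d : G ⧸ T),
        F (ind (k := k) N.subtype m) c d =
          if c = d then (cj N V (c.out)⁻¹ m).map (fun r => single (1 : T ⧸ N.subgroupOf T) r) else 0 := by
  obtain ⟨Θ, hΘ⟩ := theta (k := k) (N.subgroupOf T) (MonoidAlgebra.lift k (Matrix ι ι k) T ρ)
  have hR1 : ∀ t : T, MonoidAlgebra.lift k (Matrix ι ι k) T ρ (single t 1) = ρ t := by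
    intro t
    rw [MonoidAlgebra.lift_single, one_smul]
  have hΘs : Function.Surjective Θ := by
    refine theta_surj (k := k) (N.subgroupOf T) (MonoidAlgebra.lift k (Matrix ι ι k) T ρ) ?_ Θ hΘ
    intro M
    have h2 : Submodule.span k (Set.range V) ≤
        LinearMap.range (((MonoidAlgebra.lift k (Matrix ι ι k) T ρ).comp
          (ind (k := k) (N.subgroupOf T).subtype)).toLinearMap) := by
      rw [Submodule.span_le]
      rintro _ ⟨n, rfl⟩
      refine ⟨single ⟨⟨(n : G), hNT n.2⟩, Subgroup.mem_subgroupOf.2 n.2⟩ 1, ?_⟩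
      change MonoidAlgebra.lift k (Matrix ι ι k) T ρ
        (ind (k := k) (N.subgroupOf T).subtype
          (single ⟨⟨(n : G), hNT n.2⟩, Subgroup.mem_subgroupOf.2 n.2⟩ 1)) = V n
      rw [ind, MonoidAlgebra.mapDomainAlgHom_apply, MonoidAlgebra.mapDomain_single]
      exact (hR1 _).trans (hρ n _)
    have h3 : M ∈ Submodule.span k (Set.range V) := by
      rw [hV]
      trivial
    obtain ⟨m, hm⟩ := h2 h3
    exact ⟨m, hm⟩
  have hΘ2 : ∀ t i j, Θ (single t 1) i j =
      single (QuotientGroup.mk t : T ⧸ N.subgroupOf T) (ρ t i j) := fun t i j => by rw [hΘ, hR1]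
  refine ⟨(Θ.mapMatrix (m := G ⧸ T)).comp (lmHom T k),
    ind_surj N T hNT V ρ hρ Θ hΘ2 hΘs (fun c M => ?_),
    fun m c d => ind_diag N T hNT V ρ hρ Θ hΘ2 m c d⟩
  obtain ⟨m, hm⟩ := cosets_surj N V hV (c.out)⁻¹ M
  refine ⟨b c.out * m, ?_, fun y hy => ?_⟩
  · rw [map_mul, h1, one_mul, hm]
  · rw [map_mul, h0 c.out y.out, zero_mul]
    intro h
    apply hy
    have h2 : (QuotientGroup.mk c.out : G ⧸ T) = QuotientGroup.mk y.out := QuotientGroup.eq.2 h
    rw [QuotientGroup.out_eq', QuotientGroup.out_eq'] at h2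
    exact h2.symm

/-- PROOF. For `x : X` let `Θ x` be given by `theta` (Wil/Rel) for `T x`, its normal subgroup `N.subgroupOf (T x)` and `MonoidAlgebra.lift (ρ x)`; it is surjective by `theta_surj` (exactly as in
the proof of `pp_step`, Wpp/Cli.lean, with `hV x`); `F x = ((Θ x).mapMatrix).comp (lmHom (T x) k)` is surjective by `ind_surj` (Wpp/Cli.lean) with `hsep c M`: by `cosets_surj` there is `m` with
`cj N (V x) c.out⁻¹ m = M`, take `b x c.out * m` (`h1`, and `h0` because `c.out⁻¹ * y.out ∉ T x` for cosets `y ≠ c`). Let `u x = ∑ c : G ⧸ T x, ind N.subtype (b x c.out)`. By `ind_diag` `F y (ind (b x g))` is the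
diagonal matrix with entries `(cj N (V y) c.out⁻¹ (b x g)).map (single 1)`, so `F x (u x) = 1`, `F y (u x) = 0` for `y ≠ x` (`h0`). Hence `Pi` of the `F x` (`Pi.algHom`) is onto `∀ x, Matrix (G ⧸ T x) (G ⧸ T x) (Matrix (ι x) (ι x) (k[T x / N]))`:
given `Z`, choose `a x` with `F x (a x) = Z x`; `∑ x, u x * a x` maps to `Z`. Then `ssA_surj`, `ssA_pi`, `ssA_mat_ge` twice (end of the proof of `pp_step`), `ssDim_eq`. Use `Fintype (G ⧸ T x)`, `DecidableEq` by `classical` and `Fintype.ofFinite`. -/
theorem multi_bound {k G X : Type} [Field k] [Group G] [Finite G] [Fintype X] (N : Subgroup G) [N.Normal]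
    (T : X → Subgroup G) (hNT : ∀ x, N ≤ T x) (ι : X → Type) [∀ x, Fintype (ι x)] [∀ x, DecidableEq (ι x)]
    (V : ∀ x, N →* Matrix (ι x) (ι x) k) (ρ : ∀ x, T x →* Matrix (ι x) (ι x) k)
    (hρ : ∀ x (n : N) (h : (n : G) ∈ T x), ρ x ⟨(n : G), h⟩ = V x n)
    (hV : ∀ x, Submodule.span k (Set.range (V x)) = ⊤)
    (b : X → G → MonoidAlgebra k N) (h1 : ∀ x g, cj N (V x) g⁻¹ (b x g) = 1)
    (h0 : ∀ x g y g', ¬ (x = y ∧ g⁻¹ * g' ∈ T x) → cj N (V y) g'⁻¹ (b x g) = 0) :
    ∑ x, (T x).index ^ 2 * (Fintype.card (ι x) ^ 2 * ssDim k (T x ⧸ N.subgroupOf (T x))) ≤ ssDim k G := by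
  classical
  have hfin : ∀ x, Fintype (G ⧸ T x) := fun x => Fintype.ofFinite _
  choose F hFs hF using fun x => multi_bound_one N (T x) (hNT x) (V x) (ρ x) (hρ x) (hV x) (b x) (h1 x)
    (fun g g' h => h0 x g x g' (fun h2 => h h2.2))
  have hone : ∀ x, F x (∑ c : G ⧸ T x, ind (k := k) N.subtype (b x c.out)) = 1 := by
    intro x
    rw [map_sum]
    ext1 c d
    rw [Matrix.sum_apply]
    by_cases hcd : c = d
    · subst hcd
      rw [Matrix.one_apply_eq, Finset.sum_eq_single c]
      · rw [hF, if_pos rfl, h1]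
        ext1 i j
        rw [Matrix.map_apply, Matrix.one_apply, Matrix.one_apply]
        split_ifs
        · rfl
        · exact MonoidAlgebra.single_zero _
      · intro c' _ hc'
        rw [hF, if_pos rfl, h0 x c'.out x c.out]
        · ext1 i j
          rw [Matrix.map_apply, Matrix.zero_apply, Matrix.zero_apply]
          exact MonoidAlgebra.single_zero _
        · intro h
          apply hc'
          have h2 : (QuotientGroup.mk c'.out : G ⧸ T x) = QuotientGroup.mk c.out :=
            QuotientGroup.eq.2 h.2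
          rw [QuotientGroup.out_eq', QuotientGroup.out_eq'] at h2
          exact h2
      · intro h
        exact absurd (Finset.mem_univ c) h
    · rw [Matrix.one_apply_ne hcd]
      refine Finset.sum_eq_zero fun c' _ => ?_
      rw [hF, if_neg hcd]
  have hzero : ∀ x y, x ≠ y → F y (∑ c : G ⧸ T x, ind (k := k) N.subtype (b x c.out)) = 0 := by
    intro x y hxy
    rw [map_sum]
    refine Finset.sum_eq_zero fun c' _ => ?_
    ext1 c d
    rw [hF, Matrix.zero_apply]
    split_ifs
    · rw [h0 x c'.out y c.out (fun h => hxy h.1)]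
      ext1 i j
      rw [Matrix.map_apply, Matrix.zero_apply, Matrix.zero_apply]
      exact MonoidAlgebra.single_zero _
    · rfl
  have hs : Function.Surjective (AlgHom.pi F) := by
    intro Z
    choose a ha using fun x => hFs x (Z x)
    refine ⟨∑ x, (∑ c : G ⧸ T x, ind (k := k) N.subtype (b x c.out)) * a x, ?_⟩
    funext y
    show F y (∑ x, (∑ c : G ⧸ T x, ind (k := k) N.subtype (b x c.out)) * a x) = Z y
    rw [map_sum, Finset.sum_eq_single y]
    · rw [map_mul, hone, one_mul, ha]
    · intro x _ hxy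
      rw [map_mul, hzero x y hxy, zero_mul]
    · intro h
      exact absurd (Finset.mem_univ y) h
  have h3 := ssA_surj (AlgHom.pi F) hs
  have h4 := ssA_pi (k := k) (fun x => Matrix (G ⧸ T x) (G ⧸ T x) (Matrix (ι x) (ι x)
        (MonoidAlgebra k (T x ⧸ N.subgroupOf (T x)))))
  rw [ssDim_eq]
  refine le_trans (Finset.sum_le_sum fun x _ => ?_) (h4.trans h3)
  have h5 := ssA_mat_ge (k := k) (A := Matrix (ι x) (ι x)
    (MonoidAlgebra k (T x ⧸ N.subgroupOf (T x)))) (ι := G ⧸ T x)
  have h6 := ssA_mat_ge (k := k) (A := MonoidAlgebra k (T x ⧸ N.subgroupOf (T x))) (ι := ι x)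
  have h7 : (T x).index = Fintype.card (G ⧸ T x) := by
    rw [Subgroup.index, Nat.card_eq_fintype_card]
  rw [h7, ssDim_eq]
  exact (Nat.mul_le_mul_left _ h6).trans h5
-- END multi_bound

-- BEGIN irr_exists
/-- PROOF. `A = k[H] ⧸ Ring.jacobson` is semisimple (`art`, as in `ssA_pi`), so `IsSemisimpleRing.exists_algEquiv_pi_matrix_of_isAlgClosed` gives `n`, `d` and `A ≃ₐ ∀ i : Fin n, Matrix (Fin (d i)) (Fin (d i)) k`. Let
`φ : k[H] →ₐ ∀ i, ..` be the composite with the quotient map, surjective. `V i h = φ (single h 1) i`; `lift (V i) = (Pi.evalAlgHom _ _ i).comp φ` (`MonoidAlgebra.algHom_ext`), surjective, so the span is `⊤`;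
`e i` = a preimage of `Pi.single i 1`; `∑ d i ^ 2 = finrank k A = ssDim k H` (definition of `ssDim`, `Module.finrank_matrix`). -/
theorem irr_exists (k H : Type) [Field k] [IsAlgClosed k] [Group H] [Finite H] :
    ∃ (r : ℕ) (d : Fin r → ℕ), Nonempty (IrrData k H r d) := by
  classical
  have : Module.Finite k (MonoidAlgebra k H) := inferInstance
  have : IsArtinianRing (MonoidAlgebra k H) := art k (MonoidAlgebra k H)
  have hss : IsSemisimpleRing (MonoidAlgebra k H ⧸ Ring.jacobson (MonoidAlgebra k H)) := inferInstance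
  let φ₀ : MonoidAlgebra k H →ₐ[k] (MonoidAlgebra k H ⧸ Ring.jacobson (MonoidAlgebra k H)) :=
    Ideal.Quotient.mkₐ k _
  have hφ₀ : Function.Surjective φ₀ := Ideal.Quotient.mkₐ_surjective k _
  have : FiniteDimensional k (MonoidAlgebra k H ⧸ Ring.jacobson (MonoidAlgebra k H)) :=
    Module.Finite.of_surjective φ₀.toLinearMap hφ₀
  obtain ⟨r, d, hd, ⟨e⟩⟩ := IsSemisimpleRing.exists_algEquiv_pi_matrix_of_isAlgClosed k
    (MonoidAlgebra k H ⧸ Ring.jacobson (MonoidAlgebra k H))
  let φ : MonoidAlgebra k H →ₐ[k] (∀ i, Matrix (Fin (d i)) (Fin (d i)) k) :=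
    (e : _ →ₐ[k] (∀ i, Matrix (Fin (d i)) (Fin (d i)) k)).comp φ₀
  have hφ : Function.Surjective φ := e.surjective.comp hφ₀
  let V : ∀ i, H →* Matrix (Fin (d i)) (Fin (d i)) k := fun i =>
    (((Pi.evalAlgHom k (fun i => Matrix (Fin (d i)) (Fin (d i)) k) i).comp φ :
      MonoidAlgebra k H →ₐ[k] Matrix (Fin (d i)) (Fin (d i)) k) :
        MonoidAlgebra k H →* Matrix (Fin (d i)) (Fin (d i)) k).comp (MonoidAlgebra.of k H)
  have hV : ∀ i, MonoidAlgebra.lift k (Matrix (Fin (d i)) (Fin (d i)) k) H (V i) =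
      (Pi.evalAlgHom k (fun i => Matrix (Fin (d i)) (Fin (d i)) k) i).comp φ := by
    intro i
    exact (MonoidAlgebra.lift k (Matrix (Fin (d i)) (Fin (d i)) k) H).apply_symm_apply
      ((Pi.evalAlgHom k (fun i => Matrix (Fin (d i)) (Fin (d i)) k) i).comp φ)
  choose ee hee using fun i => hφ (Pi.single i 1)
  refine ⟨r, d, ⟨{ V := V, e := ee, span := ?_, he := ?_, sum := ?_ }⟩⟩
  · intro i
    rw [eq_top_iff]
    intro M _
    obtain ⟨x, hx⟩ := hφ (Pi.single i M)
    have h1 : M = MonoidAlgebra.lift k (Matrix (Fin (d i)) (Fin (d i)) k) H (V i) x := by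
      rw [hV]
      show M = φ x i
      rw [hx, Pi.single_eq_same]
    rw [h1, MonoidAlgebra.lift_apply]
    exact Submodule.sum_mem _ fun h _ => Submodule.smul_mem _ _ (Submodule.subset_span ⟨h, rfl⟩)
  · intro i j
    rw [hV]
    show φ (ee i) j = _
    rw [hee]
    by_cases hij : i = j
    · subst hij
      rw [Pi.single_eq_same, if_pos rfl]
    · rw [Pi.single_eq_of_ne (Ne.symm hij), if_neg hij]
  · have h1 : ssDim k H = Module.finrank k (MonoidAlgebra k H ⧸ Ring.jacobson (MonoidAlgebra k H)) :=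
      (Submodule.Quotient.restrictScalarsEquiv k (Ring.jacobson (MonoidAlgebra k H))).finrank_eq
    rw [h1, e.toLinearEquiv.finrank_eq, Module.finrank_pi_fintype]
    refine Finset.sum_congr rfl fun i _ => ?_
    rw [Module.finrank_matrix, Module.finrank_self, Fintype.card_fin]
    ring
-- END irr_exists

-- BEGIN prod_bound
private theorem prod_surj {k A B : Type} [Field k] [Group A] [Group B] {r : ℕ} {d : Fin r → ℕ}
    (D : IrrData k A r d) :
    ∃ Φ : MonoidAlgebra k (A × B) →ₐ[k] (∀ i : Fin r, Matrix (Fin (d i)) (Fin (d i)) (MonoidAlgebra k B)),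
      Function.Surjective Φ := by
  classical
  let P : ∀ i : Fin r, A × B →* Matrix (Fin (d i)) (Fin (d i)) (MonoidAlgebra k B) := fun i =>
    { toFun := fun x => Matrix.of fun s t => single x.2 (D.V i x.1 s t)
      map_one' := by
        ext1 s t
        simp only [Prod.fst_one, Prod.snd_one, map_one, Matrix.of_apply, Matrix.one_apply]
        split_ifs
        · rfl
        · simp
      map_mul' := fun x y => by
        ext1 s t
        rw [Matrix.mul_apply, Matrix.of_apply, Prod.fst_mul, Prod.snd_mul, map_mul, Matrix.mul_apply]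
        simp only [Matrix.of_apply, MonoidAlgebra.single_mul_single]
        exact map_sum (MonoidAlgebra.singleAddHom (x.2 * y.2)) _ _ }
  let F : ∀ i : Fin r, MonoidAlgebra k (A × B) →ₐ[k] Matrix (Fin (d i)) (Fin (d i)) (MonoidAlgebra k B) :=
    fun i => MonoidAlgebra.lift k (Matrix (Fin (d i)) (Fin (d i)) (MonoidAlgebra k B)) (A × B) (P i)
  let G : ∀ i : Fin r, MonoidAlgebra k A →ₐ[k] Matrix (Fin (d i)) (Fin (d i)) k :=
    fun i => MonoidAlgebra.lift k (Matrix (Fin (d i)) (Fin (d i)) k) A (D.V i)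
  let E : B → MonoidAlgebra k A →ₗ[k] MonoidAlgebra k (A × B) := fun b =>
    (LinearMap.mulRight k (single ((1 : A), b) (1 : k))).comp
      (MonoidAlgebra.lift k (MonoidAlgebra k (A × B)) A
        ((MonoidAlgebra.of k (A × B)).comp (MonoidHom.inl A B))).toLinearMap
  have hE : ∀ (b : B) (a : A) (c : k), E b (single a c) = single (a, b) c := by
    intro b a c
    change (MonoidAlgebra.lift k (MonoidAlgebra k (A × B)) A
        ((MonoidAlgebra.of k (A × B)).comp (MonoidHom.inl A B)) (single a c)) *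
          single ((1 : A), b) (1 : k) = single (a, b) c
    rw [MonoidAlgebra.lift_single]
    change (c • (single ((a, 1) : A × B) (1 : k))) * single ((1 : A), b) (1 : k) = _
    rw [MonoidAlgebra.smul_single, MonoidAlgebra.single_mul_single]
    simp
  have hFE : ∀ (i : Fin r) (b : B) (u : MonoidAlgebra k A),
      F i (E b u) = Matrix.of fun s t => (single b (G i u s t) : MonoidAlgebra k B) := by
    intro i b u
    induction u using MonoidAlgebra.induction_linear with
    | zero =>
      rw [map_zero, map_zero, map_zero]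
      ext1 s t
      simp
    | add u v hu hv =>
      rw [map_add, map_add, hu, hv, map_add]
      ext1 s t
      rw [Matrix.add_apply]
      simp only [Matrix.of_apply, Matrix.add_apply, MonoidAlgebra.single_add]
    | single a c =>
      rw [hE]
      have h1 : F i (single (a, b) c) = c • P i (a, b) := by
        simp only [F]
        rw [MonoidAlgebra.lift_single]
      have h2 : G i (single a c) = c • D.V i a := by
        simp only [G]
        rw [MonoidAlgebra.lift_single]
      rw [h1, h2]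
      ext1 s t
      rw [Matrix.smul_apply]
      simp only [Matrix.of_apply, Matrix.smul_apply]
      change c • (single b (D.V i a s t) : MonoidAlgebra k B) = _
      rw [MonoidAlgebra.smul_single]
  have hG : ∀ (i : Fin r) (M : Matrix (Fin (d i)) (Fin (d i)) k), ∃ u, G i u = M := by
    intro i M
    have hM : M ∈ Submodule.span k (Set.range (D.V i)) := by
      rw [D.span i]
      trivial
    have hle : Submodule.span k (Set.range (D.V i)) ≤ LinearMap.range (G i).toLinearMap := by
      rw [Submodule.span_le]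
      rintro _ ⟨a, rfl⟩
      refine ⟨single a 1, ?_⟩
      change G i (single a 1) = _
      simp only [G]
      rw [MonoidAlgebra.lift_single, one_smul]
    obtain ⟨u, hu⟩ := hle hM
    exact ⟨u, hu⟩
  let Φ : MonoidAlgebra k (A × B) →ₐ[k] (∀ i : Fin r, Matrix (Fin (d i)) (Fin (d i)) (MonoidAlgebra k B)) :=
    AlgHom.pi F
  refine ⟨Φ, fun z => ?_⟩
  have h1 : ∀ (i : Fin r) (s t : Fin (d i)) (b : B) (c : k),
      (Pi.single i (Matrix.single s t (single b c : MonoidAlgebra k B)) :
        ∀ i : Fin r, Matrix (Fin (d i)) (Fin (d i)) (MonoidAlgebra k B)) ∈ Φ.range := by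
    intro i s t b c
    obtain ⟨u, hu⟩ := hG i (Matrix.single s t c)
    refine ⟨E b (D.e i * u), ?_⟩
    funext j
    change F j (E b (D.e i * u)) = _
    rw [hFE, map_mul]
    have h2 : G j (D.e i) = if i = j then 1 else 0 := D.he i j
    rw [h2]
    by_cases hij : i = j
    · subst hij
      rw [if_pos rfl, one_mul, hu, Pi.single_eq_same]
      ext1 s' t'
      rw [Matrix.of_apply, Matrix.single_apply, Matrix.single_apply]
      split_ifs
      · rfl
      · simp
    · rw [if_neg hij, zero_mul, Pi.single_eq_of_ne (Ne.symm hij)]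
      ext1 s' t'
      simp
  have h3 : ∀ (i : Fin r) (s t : Fin (d i)) (a : MonoidAlgebra k B),
      (Pi.single i (Matrix.single s t a) :
        ∀ i : Fin r, Matrix (Fin (d i)) (Fin (d i)) (MonoidAlgebra k B)) ∈ Φ.range := by
    intro i s t a
    induction a using MonoidAlgebra.induction_linear with
    | zero =>
      rw [Matrix.single_zero, Pi.single_zero]
      exact Subalgebra.zero_mem _
    | add a b ha hb =>
      rw [Matrix.single_add, Pi.single_add]
      exact Subalgebra.add_mem _ ha hb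
    | single q c => exact h1 i s t q c
  have h4 : ∀ (i : Fin r) (M : Matrix (Fin (d i)) (Fin (d i)) (MonoidAlgebra k B)),
      (Pi.single i M : ∀ i : Fin r, Matrix (Fin (d i)) (Fin (d i)) (MonoidAlgebra k B)) ∈ Φ.range := by
    intro i M
    have h5 : (Pi.single i M : ∀ i : Fin r, Matrix (Fin (d i)) (Fin (d i)) (MonoidAlgebra k B)) =
        ∑ s, ∑ t, Pi.single i (Matrix.single s t (M s t)) := by
      conv_lhs => rw [Matrix.matrix_eq_sum_single M]
      have h6 := map_sum (AddMonoidHom.single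
        (fun i : Fin r => Matrix (Fin (d i)) (Fin (d i)) (MonoidAlgebra k B)) i)
        (fun s => ∑ t, Matrix.single s t (M s t)) Finset.univ
      refine h6.trans (Finset.sum_congr rfl fun s _ => ?_)
      exact map_sum (AddMonoidHom.single
        (fun i : Fin r => Matrix (Fin (d i)) (Fin (d i)) (MonoidAlgebra k B)) i)
        (fun t => Matrix.single s t (M s t)) Finset.univ
    rw [h5]
    exact Subalgebra.sum_mem _ fun s _ => Subalgebra.sum_mem _ fun t _ => h3 i s t _
  have h7 : z ∈ Φ.range := by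
    rw [← Finset.univ_sum_single z]
    exact Subalgebra.sum_mem _ fun i _ => h4 i (z i)
  exact h7

/-- PROOF. `irr_exists` for `A`. For each `i` the map `(a, b) ↦ (V i a).map (single b)` is a monoid homomorphism of `A × B` into `Matrix (Fin (d i)) (Fin (d i)) k[B]` (as `P` in `ssDim_quot`, Wnx/Idx.lean), let
`F i : k[A × B] →ₐ Matrix .. k[B]` be its lift. `Pi.algHom F` is surjective: the image of `e i` under `k[A] → k[A × B]` is `1` in the `i`-th factor and `0` in the others; `F i` is surjective: `F i (u ⊗ b) = (lift (V i) u).map (single b)`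
and `lift (V i)` is onto by `span`. So `ssA_surj`, `ssA_pi`, `ssA_mat_ge`: `∑ i, d i ^ 2 * ssDim k B ≤ ssDim k (A × B)`. (Or: `multi_bound` with `N = A × 1`, `T = ⊤`.) -/
theorem prod_bound (k A B : Type) [Field k] [IsAlgClosed k] [Group A] [Finite A] [Group B] [Finite B] :
    ssDim k A * ssDim k B ≤ ssDim k (A × B) := by
  obtain ⟨r, d, ⟨D⟩⟩ := irr_exists k A
  obtain ⟨Φ, hΦ⟩ := prod_surj (B := B) D
  have h1 := ssA_surj Φ hΦ
  have h2 := ssA_pi (k := k) fun i : Fin r => Matrix (Fin (d i)) (Fin (d i)) (MonoidAlgebra k B)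
  have h3 : ∑ i : Fin r, d i ^ 2 * ssDim k B ≤
      ∑ i : Fin r, ssA k (Matrix (Fin (d i)) (Fin (d i)) (MonoidAlgebra k B)) := by
    refine Finset.sum_le_sum fun i _ => ?_
    have h4 := ssA_mat_ge (k := k) (A := MonoidAlgebra k B) (ι := Fin (d i))
    rw [Fintype.card_fin] at h4
    exact h4
  rw [← Finset.sum_mul, D.sum] at h3
  exact (h3.trans h2).trans h1
-- END prod_bound

end Pool.Agent.Wrc
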