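import Pool.Agent.Wpp.Cli

/-!
Willems' inequality for wreath products (MP_6335a4_al): definitions. `k` a field, `H`, `P` finite groups, `P` acts on the finite type `Ω`.
-/

set_option autoImplicit false

namespace Pool.Agent.Wrc

open MonoidAlgebra Pool.Agent.Wil Pool.Agent.Wnx Pool.Agent.Wpp

/-- The action of `P` on the functions `Ω → H`: `(p h) ω = h (p⁻¹ ω)`. -/
def act (H P Ω : Type) [Group H] [Group P] [MulAction P Ω] : P →* MulAut (Ω → H) where
  toFun p :=
    { toFun := fun h ω => h (p⁻¹ • ω)
      invFun := fun h ω => h (p • ω)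
      left_inv := fun h => by funext ω; simp
      right_inv := fun h => by funext ω; simp
      map_mul' := fun _ _ => rfl }
  map_one' := by ext h ω; simp
  map_mul' p q := by
    ext h ω
    simp [mul_smul]

/-- The wreath product `H ≀ P`, `P` acting on `Ω`. -/
abbrev Wr (H P Ω : Type) [Group H] [Group P] [MulAction P Ω] : Type := (Ω → H) ⋊[act H P Ω] P

/-- The stabiliser in `P` of the colouring `f`. -/
def stab {P Ω C : Type} [Group P] [MulAction P Ω] (f : Ω → C) : Subgroup P where
  carrier := {p | ∀ ω, f (p • ω) = f ω}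
  mul_mem' := fun {p q} hp hq ω => by rw [mul_smul, hp, hq]
  one_mem' := fun ω => by rw [one_smul]
  inv_mem' := fun {p} hp ω => by rw [← hp (p⁻¹ • ω), smul_inv_smul]

theorem mem_stab {P Ω C : Type} [Group P] [MulAction P Ω] (f : Ω → C) (p : P) :
    p ∈ stab f ↔ ∀ ω, f (p • ω) = f ω := Iff.rfl

/-- The irreducible representations of `H` over `k` (for `k` algebraically closed): `r` of them, degrees `d i`, with elements `e i` of the
group algebra which act as `δ_ij` on the `j`-th one. -/
structure IrrData (k H : Type) [Field k] [Group H] (r : ℕ) (d : Fin r → ℕ) where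
  V : ∀ i, H →* Matrix (Fin (d i)) (Fin (d i)) k
  e : Fin r → MonoidAlgebra k H
  span : ∀ i, Submodule.span k (Set.range (V i)) = ⊤
  he : ∀ i j, MonoidAlgebra.lift k (Matrix (Fin (d j)) (Fin (d j)) k) H (V j) (e i) = if i = j then 1 else 0
  sum : ∑ i, d i ^ 2 = ssDim k H

section wr
variable {k H P Ω : Type} [Field k] [Group H] [Group P] [MulAction P Ω] [Fintype Ω] [DecidableEq Ω]
  {r : ℕ} {d : Fin r → ℕ}

/-- The block diagonal sum of the irreducible representations. -/
noncomputable def W (D : IrrData k H r d) : H →* Matrix (Σ i, Fin (d i)) (Σ i, Fin (d i)) k where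
  toFun h := Matrix.blockDiagonal' fun i => D.V i h
  map_one' := by
    have h1 : (fun i => D.V i (1 : H)) = 1 := by funext i; simp
    rw [h1, Matrix.blockDiagonal'_one]
  map_mul' x y := by
    rw [← Matrix.blockDiagonal'_mul]
    congr 1
    funext i
    rw [map_mul]

/-- `W` on the group algebra. -/
noncomputable def WL (D : IrrData k H r d) :
    MonoidAlgebra k H →ₐ[k] Matrix (Σ i, Fin (d i)) (Σ i, Fin (d i)) k :=
  MonoidAlgebra.lift k _ H (W D)

/-- The normal subgroup `H ^ Ω` of the wreath product. -/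
abbrev NN (H P Ω : Type) [Group H] [Group P] [MulAction P Ω] : Subgroup (Wr H P Ω) :=
  (SemidirectProduct.rightHom : Wr H P Ω →* P).ker

/-- The element `h` of `H ^ Ω`. -/
def inN (H P Ω : Type) [Group H] [Group P] [MulAction P Ω] (h : Ω → H) : NN H P Ω :=
  ⟨SemidirectProduct.inl h, by rw [MonoidHom.mem_ker, SemidirectProduct.rightHom_inl]⟩

/-- The inertia group of the tensor product of type `f`. -/
def TT (H : Type) {P Ω : Type} [Group H] [Group P] [MulAction P Ω] {r : ℕ} (f : Ω → Fin r) : Subgroup (Wr H P Ω) :=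
  (stab f).comap SemidirectProduct.rightHom

theorem NN_le_TT (f : Ω → Fin r) : NN H P Ω ≤ TT H f := by
  intro g hg
  rw [MonoidHom.mem_ker] at hg
  rw [TT, Subgroup.mem_comap, hg]
  exact Subgroup.one_mem _

/-- The index set of the tensor product of type `f`. -/
def It {Ω : Type} {r : ℕ} (d : Fin r → ℕ) (f : Ω → Fin r) : Type := {a : Ω → Σ i, Fin (d i) // ∀ ω, (a ω).1 = f ω}

instance It.finite {Ω : Type} [Finite Ω] {r : ℕ} (d : Fin r → ℕ) (f : Ω → Fin r) : Finite (It d f) := by
  unfold It
  infer_instance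

noncomputable instance It.fintype {Ω : Type} [Finite Ω] {r : ℕ} (d : Fin r → ℕ) (f : Ω → Fin r) : Fintype (It d f) :=
  Fintype.ofFinite _

noncomputable instance It.decEq {Ω : Type} {r : ℕ} (d : Fin r → ℕ) (f : Ω → Fin r) : DecidableEq (It d f) :=
  Classical.decEq _

/-- The matrix of `g` in the tensor product of type `f`. -/
noncomputable def Rm (D : IrrData k H r d) (f : Ω → Fin r) (g : Wr H P Ω) : Matrix (It d f) (It d f) k :=
  Matrix.of fun a b => ∏ ω, W D (g.left ω) (a.1 ω) (b.1 (g.right⁻¹ • ω))

end wr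

end Pool.Agent.Wrc
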