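import Pool.Agent.Wrc.Defs

/-! The representations of the wreath product. -/

set_option autoImplicit false

namespace Pool.Agent.Wrc

open MonoidAlgebra Pool.Agent.Wil Pool.Agent.Wnx Pool.Agent.Wpp

section wr
variable {k H P Ω : Type} [Field k] [Group H] [Group P] [MulAction P Ω] [Fintype Ω] [DecidableEq Ω]
  {r : ℕ} {d : Fin r → ℕ}

-- BEGIN W_block
/-- PROOF. `Matrix.blockDiagonal'_apply_ne`. -/
theorem W_block (D : IrrData k H r d) (h : H) (j j' : Σ i, Fin (d i)) (hj : j.1 ≠ j'.1) : W D h j j' = 0 := by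
  obtain ⟨i, x⟩ := j
  obtain ⟨i', y⟩ := j'
  exact Matrix.blockDiagonal'_apply_ne (fun i => D.V i h) x y hj
-- END W_block

-- BEGIN WL_eq
/-- PROOF. Both sides are linear in `u` (`MonoidAlgebra.induction_linear`, `Matrix.blockDiagonal'_add`, `Matrix.blockDiagonal'_smul`), on `single h c` they agree by `lift_single`. -/
theorem WL_eq (D : IrrData k H r d) (u : MonoidAlgebra k H) :
    WL D u = Matrix.blockDiagonal' fun i => MonoidAlgebra.lift k (Matrix (Fin (d i)) (Fin (d i)) k) H (D.V i) u := by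
  induction u using MonoidAlgebra.induction_linear with
  | zero =>
    rw [map_zero]
    have h1 : (fun i => MonoidAlgebra.lift k (Matrix (Fin (d i)) (Fin (d i)) k) H (D.V i) (0 : MonoidAlgebra k H)) = 0 := by
      funext i
      rw [map_zero]
      rfl
    rw [h1, Matrix.blockDiagonal'_zero]
  | add f g hf hg =>
    rw [map_add, hf, hg, ← Matrix.blockDiagonal'_add]
    congr 1
    funext i
    rw [Pi.add_apply, map_add]
  | single a b =>
    unfold WL
    rw [MonoidAlgebra.lift_single]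
    have h1 : (fun i => MonoidAlgebra.lift k (Matrix (Fin (d i)) (Fin (d i)) k) H (D.V i) (single a b)) =
        b • (fun i => D.V i a) := by
      funext i
      rw [MonoidAlgebra.lift_single]
      rfl
    rw [h1, Matrix.blockDiagonal'_smul]
    rfl
-- END WL_eq

-- BEGIN WL_e
/-- PROOF. `WL_eq`, `D.he`: the block `j.1 = j'.1 = i'` of `WL D (e i)` is `1` if `i = i'`, `0` otherwise. -/
theorem WL_e (D : IrrData k H r d) (i : Fin r) (j j' : Σ i, Fin (d i)) :
    WL D (D.e i) j j' = if j = j' ∧ j.1 = i then 1 else 0 := by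
  obtain ⟨a, x⟩ := j
  obtain ⟨b, y⟩ := j'
  rw [WL_eq]
  by_cases hab : a = b
  · subst hab
    rw [Matrix.blockDiagonal'_apply_eq, D.he]
    by_cases hi : i = a
    · subst hi
      rw [if_pos rfl]
      by_cases hxy : x = y
      · subst hxy
        rw [if_pos ⟨rfl, rfl⟩, Matrix.one_apply_eq]
      · rw [if_neg, Matrix.one_apply_ne hxy]
        rintro ⟨h1, -⟩
        rw [Sigma.mk.injEq] at h1
        exact hxy (eq_of_heq h1.2)
    · rw [if_neg hi, if_neg, Matrix.zero_apply]
      rintro ⟨-, h1⟩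
      exact hi h1.symm
  · rw [Matrix.blockDiagonal'_apply_ne _ _ _ hab, if_neg]
    rintro ⟨h1, -⟩
    rw [Sigma.mk.injEq] at h1
    exact hab h1.1
-- END WL_e

-- BEGIN e_comm
/-- PROOF. `W D x` is block diagonal (`W_block`), `WL D (e i)` is the projection on the `i`-th block (`WL_e`), so they commute (`Matrix.mul_apply`); then `W D h⁻¹ * W D h = 1`. -/
theorem e_comm (D : IrrData k H r d) (i : Fin r) (h : H) :
    W D h⁻¹ * WL D (D.e i) * W D h = WL D (D.e i) := by
  have h1 : WL D (D.e i) * W D h = W D h * WL D (D.e i) := by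
    ext a b
    rw [Matrix.mul_apply, Matrix.mul_apply, Finset.sum_eq_single a, Finset.sum_eq_single b, WL_e, WL_e]
    · by_cases hab : a.1 = b.1
      · rw [hab]
        by_cases hb : b.1 = i
        · rw [if_pos ⟨rfl, hb⟩, if_pos ⟨rfl, hb⟩, one_mul, mul_one]
        · rw [if_neg (fun hh => hb hh.2), if_neg (fun hh => hb hh.2), zero_mul, mul_zero]
      · rw [W_block D h a b hab, mul_zero, zero_mul]
    · intro c _ hc
      rw [WL_e, if_neg (fun hh => hc hh.1), mul_zero]
    · intro hc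
      exact absurd (Finset.mem_univ _) hc
    · intro c _ hc
      rw [WL_e, if_neg (fun hh => hc hh.1.symm), zero_mul]
    · intro hc
      exact absurd (Finset.mem_univ _) hc
  rw [mul_assoc, h1, ← mul_assoc, ← map_mul, inv_mul_cancel, map_one, one_mul]
-- END e_comm

-- BEGIN unit_exists
private theorem unit_exists_surj (D : IrrData k H r d) (i : Fin r) (A : Matrix (Fin (d i)) (Fin (d i)) k) :
    ∃ v : MonoidAlgebra k H, MonoidAlgebra.lift k (Matrix (Fin (d i)) (Fin (d i)) k) H (D.V i) v = A := by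
  have h1 : (⊤ : Submodule k (Matrix (Fin (d i)) (Fin (d i)) k)) ≤
      LinearMap.range (MonoidAlgebra.lift k (Matrix (Fin (d i)) (Fin (d i)) k) H (D.V i)).toLinearMap := by
    rw [← D.span i, Submodule.span_le]
    rintro _ ⟨h, rfl⟩
    refine ⟨MonoidAlgebra.single h 1, ?_⟩
    rw [AlgHom.toLinearMap_apply, MonoidAlgebra.lift_single, one_smul]
  exact h1 (Submodule.mem_top (x := A))

/-- PROOF. The span of the range of `D.V j.1` is `⊤`, so `lift (D.V j.1)` is surjective (as in `cosets_surj`, Wpp/Cli.lean): take `v` with image `Matrix.single j.2 (cast j'.2) 1` and `u = v * e j.1`: by `WL_eq` its block number `i` is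
`(lift (D.V i) v) * δ`, zero for `i ≠ j.1`. -/
theorem unit_exists (D : IrrData k H r d) (j j' : Σ i, Fin (d i)) (hj : j.1 = j'.1) :
    ∃ u : MonoidAlgebra k H, ∀ a b, WL D u a b = if a = j ∧ b = j' then 1 else 0 := by
  obtain ⟨i, x⟩ := j
  obtain ⟨i', y⟩ := j'
  have hi : i = i' := hj
  subst hi
  obtain ⟨v, hv⟩ := unit_exists_surj D i (Matrix.single x y 1)
  refine ⟨v * D.e i, ?_⟩
  rintro ⟨a1, a2⟩ ⟨b1, b2⟩
  rw [WL_eq]
  by_cases hab : a1 = b1
  · subst hab
    rw [Matrix.blockDiagonal'_apply_eq, map_mul, D.he]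
    by_cases hia : i = a1
    · subst hia
      rw [if_pos rfl, mul_one, hv, Matrix.single_apply]
      by_cases h2 : x = a2 ∧ y = b2
      · obtain ⟨rfl, rfl⟩ := h2
        rw [if_pos ⟨rfl, rfl⟩, if_pos ⟨rfl, rfl⟩]
      · rw [if_neg h2, if_neg]
        rintro ⟨h3, h4⟩
        apply h2
        refine ⟨?_, ?_⟩
        · exact (eq_of_heq (Sigma.mk.inj h3).2).symm
        · exact (eq_of_heq (Sigma.mk.inj h4).2).symm
    · rw [if_neg hia, mul_zero, Matrix.zero_apply, if_neg]
      rintro ⟨h3, -⟩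
      exact hia (congrArg Sigma.fst h3).symm
  · rw [Matrix.blockDiagonal'_apply_ne _ _ _ hab, if_neg]
    rintro ⟨h3, h4⟩
    exact hab ((congrArg Sigma.fst h3).trans (congrArg Sigma.fst h4).symm)
-- END unit_exists

-- BEGIN Rm_mul
/-- PROOF. Let `p = g.right`, `q = g'.right`, `p ∈ stab f`. `(Rm g * Rm g') a c = ∑ b : It d f, (∏ ω, W (g.left ω) (a ω) (b (p⁻¹ ω))) * ∏ ω, W (g'.left ω) (b ω) (c (q⁻¹ ω))`. In the second product replace `ω` by `p⁻¹ ω`
(`Fintype.prod_equiv (MulAction.toPerm p⁻¹)`). The sum may be taken over ALL `b : Ω → Σ i, Fin (d i)`: if `(b ω₀).1 ≠ f ω₀` then the factor `ω = p ω₀` of the first product is `0` by `W_block`, as `(a (p ω₀)).1 = f (p ω₀) = f ω₀`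
(`Finset.sum_subtype`, or `Finset.sum_subset`). Replace `b` by `b ∘ p` (`Equiv.arrowCongr`, `Fintype.sum_equiv`), then `Finset.prod_univ_sum` (`Fintype.piFinset_univ`) backwards: `∏ ω, ∑ j, W (g.left ω) (a ω) j * W (g'.left (p⁻¹ ω)) j (c (q⁻¹ (p⁻¹ ω)))`
`= ∏ ω, W ((g * g').left ω) (a ω) (c ((p q)⁻¹ ω))`, `SemidirectProduct.mul_left`, `mul_right`, `act`, `map_mul`, `mul_inv_rev`, `mul_smul`. -/
theorem Rm_mul (D : IrrData k H r d) (f : Ω → Fin r) (g g' : Wr H P Ω) (hg : g ∈ TT H f) :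
    Rm D f (g * g') = Rm D f g * Rm D f g' := by
  have hst : ∀ ω, f (g.right • ω) = f ω := hg
  ext a c
  rw [Matrix.mul_apply]
  have hL : Rm D f (g * g') a c = ∑ x : Ω → Σ i, Fin (d i),
      ∏ ω, (W D (g.left ω) (a.1 ω) (x ω) *
        W D (g'.left (g.right⁻¹ • ω)) (x ω) (c.1 (g'.right⁻¹ • g.right⁻¹ • ω))) := by
    have h1 : Rm D f (g * g') a c = ∏ ω, ∑ j, (W D (g.left ω) (a.1 ω) j *
        W D (g'.left (g.right⁻¹ • ω)) j (c.1 (g'.right⁻¹ • g.right⁻¹ • ω))) := by
      unfold Rm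
      rw [Matrix.of_apply]
      refine Finset.prod_congr rfl fun ω _ => ?_
      have h2 : (g * g').left ω = g.left ω * g'.left (g.right⁻¹ • ω) := rfl
      have h3 : (g * g').right⁻¹ • ω = g'.right⁻¹ • g.right⁻¹ • ω := by
        rw [SemidirectProduct.mul_right, mul_inv_rev, mul_smul]
      rw [h2, h3, map_mul, Matrix.mul_apply]
    rw [h1, Finset.prod_univ_sum, Fintype.piFinset_univ]
  have hR : ∀ b : It d f, Rm D f g a b * Rm D f g' b c =
      ∏ ω, (W D (g.left ω) (a.1 ω) (b.1 (g.right⁻¹ • ω)) *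
        W D (g'.left (g.right⁻¹ • ω)) (b.1 (g.right⁻¹ • ω))
          (c.1 (g'.right⁻¹ • g.right⁻¹ • ω))) := by
    intro b
    have h1 : Rm D f g' b c = ∏ ω, W D (g'.left (g.right⁻¹ • ω)) (b.1 (g.right⁻¹ • ω))
        (c.1 (g'.right⁻¹ • g.right⁻¹ • ω)) := by
      unfold Rm
      rw [Matrix.of_apply]
      exact (Fintype.prod_equiv (MulAction.toPerm g.right⁻¹) _ _ (fun ω => rfl)).symm
    rw [h1]
    unfold Rm
    rw [Matrix.of_apply, ← Finset.prod_mul_distrib]
  rw [hL, Finset.sum_congr rfl fun b _ => hR b]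
  symm
  refine Finset.sum_of_injOn (fun b : It d f => fun ω => b.1 (g.right⁻¹ • ω)) ?_ ?_ ?_ ?_
  · intro b _ b' _ h
    apply Subtype.ext
    funext ω
    have h1 : b.1 (g.right⁻¹ • g.right • ω) = b'.1 (g.right⁻¹ • g.right • ω) :=
      congrFun h (g.right • ω)
    rw [inv_smul_smul] at h1
    exact h1
  · intro _ _
    exact Finset.mem_coe.2 (Finset.mem_univ _)
  · intro x _ hx
    by_contra hne
    apply hx
    have hx1 : ∀ ω, (x ω).1 = f ω := by
      intro ω
      by_contra hω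
      apply hne
      apply Finset.prod_eq_zero (Finset.mem_univ ω)
      rw [W_block D (g.left ω) (a.1 ω) (x ω) (by rw [a.2 ω]; exact fun h => hω h.symm), zero_mul]
    refine ⟨⟨fun ω => x (g.right • ω), fun ω => by rw [hx1, hst]⟩, ?_, ?_⟩
    · exact Finset.mem_coe.2 (Finset.mem_univ _)
    · funext ω
      show x (g.right • g.right⁻¹ • ω) = x ω
      rw [smul_inv_smul]
  · intro b _
    rfl
-- END Rm_mul

-- BEGIN Rm_one
/-- PROOF. `∏ ω, (1 : Matrix) (a ω) (b ω)` is `1` if `a = b` and `0` otherwise. -/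
theorem Rm_one (D : IrrData k H r d) (f : Ω → Fin r) : Rm D f (1 : Wr H P Ω) = 1 := by
  have h1 : ∀ ω : Ω, W D ((1 : Wr H P Ω).left ω) = 1 := by
    intro ω
    rw [SemidirectProduct.one_left, Pi.one_apply, map_one]
  have h2 : ∀ ω : Ω, (1 : Wr H P Ω).right⁻¹ • ω = ω := by
    intro ω
    rw [SemidirectProduct.one_right, inv_one, one_smul]
  ext a b
  rw [Rm, Matrix.of_apply]
  by_cases h : a = b
  · subst h
    rw [Matrix.one_apply_eq]
    refine Finset.prod_eq_one fun ω _ => ?_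
    rw [h1, h2, Matrix.one_apply_eq]
  · rw [Matrix.one_apply_ne h]
    obtain ⟨ω, hω⟩ : ∃ ω, a.1 ω ≠ b.1 ω := by
      by_contra hc
      push Not at hc
      exact h (Subtype.ext (funext hc))
    refine Finset.prod_eq_zero (Finset.mem_univ ω) ?_
    rw [h1, h2, Matrix.one_apply_ne hω]
-- END Rm_one

theorem RR_mul (D : IrrData k H r d) (f : Ω → Fin r) (g g' : TT (P := P) H f) :
    Rm D f ((g * g' : TT (P := P) H f) : Wr H P Ω) = Rm D f (g : Wr H P Ω) * Rm D f (g' : Wr H P Ω) := by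
  have h1 : ((g * g' : TT (P := P) H f) : Wr H P Ω) = (g : Wr H P Ω) * (g' : Wr H P Ω) := rfl
  rw [h1]
  exact Rm_mul D f (g : Wr H P Ω) (g' : Wr H P Ω) g.2

theorem RR_one (D : IrrData k H r d) (f : Ω → Fin r) : Rm D f ((1 : TT (P := P) H f) : Wr H P Ω) = 1 := by
  have h1 : ((1 : TT (P := P) H f) : Wr H P Ω) = 1 := rfl
  rw [h1]
  exact Rm_one D f

/-- The tensor product of type `f`, a representation of its inertia group. -/
noncomputable def RR (D : IrrData k H r d) (f : Ω → Fin r) : TT (P := P) H f →* Matrix (It d f) (It d f) k where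
  toFun g := Rm D f (g : Wr H P Ω)
  map_one' := RR_one D f
  map_mul' g g' := RR_mul D f g g'

/-- The tensor product of type `f`, as a representation of `H ^ Ω`. -/
noncomputable def VV (D : IrrData k H r d) (f : Ω → Fin r) : NN H P Ω →* Matrix (It d f) (It d f) k :=
  (RR D f).comp (Subgroup.inclusion (NN_le_TT f))

theorem VV_apply (D : IrrData k H r d) (f : Ω → Fin r) (n : NN H P Ω) : VV D f n = Rm D f (n : Wr H P Ω) := rfl

-- BEGIN tens
/-- PROOF. Let `t = ∑ h : Ω → H, (∏ ω, coefficient of (u ω) at (h ω)) • single (inN H P Ω h) 1` (`Fintype H` from `Fintype.ofFinite`). Then `Φ t = ∑ h, ∏ ω, (u ω)_(h ω) * L ω (single (h ω) 1) = ∏ ω, ∑ x, (u ω)_x * L ω (single x 1)`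
(`Finset.prod_univ_sum`, `Fintype.piFinset_univ`) `= ∏ ω, L ω (u ω)`, as `u ω = ∑ x, (u ω)_x • single x 1`. -/
theorem tens [Finite H] (u : Ω → MonoidAlgebra k H) :
    ∃ t : MonoidAlgebra k (NN H P Ω), ∀ (Φ : MonoidAlgebra k (NN H P Ω) →ₗ[k] k)
      (L : Ω → MonoidAlgebra k H →ₗ[k] k),
      (∀ h : Ω → H, Φ (single (inN H P Ω h) 1) = ∏ ω, L ω (single (h ω) 1)) → Φ t = ∏ ω, L ω (u ω) := by
  classical
  have : Fintype H := Fintype.ofFinite H
  have hu : ∀ ω, ∃ c : H → k, u ω = ∑ x, c x • (single x 1 : MonoidAlgebra k H) := by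
    intro ω
    induction u ω using MonoidAlgebra.induction_linear with
    | zero => exact ⟨fun _ => 0, by simp⟩
    | add a b ha hb =>
      obtain ⟨c, hc⟩ := ha
      obtain ⟨c', hc'⟩ := hb
      refine ⟨fun x => c x + c' x, ?_⟩
      rw [hc, hc', ← Finset.sum_add_distrib]
      exact Finset.sum_congr rfl fun x _ => (add_smul _ _ _).symm
    | single m a =>
      refine ⟨fun x => if x = m then a else 0, ?_⟩
      simp [MonoidAlgebra.smul_single]
  choose c hc using hu
  refine ⟨∑ h : Ω → H, (∏ ω, c ω (h ω)) • (single (inN H P Ω h) 1 : MonoidAlgebra k (NN H P Ω)), ?_⟩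
  intro Φ L hΦ
  rw [map_sum]
  have h1 : ∀ ω, L ω (u ω) = ∑ x, c ω x * L ω (single x 1) := by
    intro ω
    rw [hc ω, map_sum]
    exact Finset.sum_congr rfl fun x _ => by rw [map_smul, smul_eq_mul]
  rw [Finset.prod_congr rfl fun ω _ => h1 ω, Finset.prod_univ_sum, Fintype.piFinset_univ]
  refine Finset.sum_congr rfl fun h _ => ?_
  rw [map_smul, hΦ, smul_eq_mul, ← Finset.prod_mul_distrib]
-- END tens

-- BEGIN conj_tens
private theorem conj_tens_re (D : IrrData k H r d) (g : Wr H P Ω) (A B : Ω → Σ i, Fin (d i))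
    (v : Ω → MonoidAlgebra k H) :
    ∏ ω, (W D (g.left ω)⁻¹ * WL D (v ω) * W D (g.left ω)) (A (g.right⁻¹ • ω)) (B (g.right⁻¹ • ω)) =
      ∏ ω, (W D (g.left (g.right • ω))⁻¹ * WL D (v (g.right • ω)) * W D (g.left (g.right • ω)))
        (A ω) (B ω) := by
  have h1 := Equiv.prod_comp (MulAction.toPerm g.right) (fun ω : Ω =>
    (W D (g.left ω)⁻¹ * WL D (v ω) * W D (g.left ω)) (A (g.right⁻¹ • ω)) (B (g.right⁻¹ • ω)))
  rw [← h1]
  refine Finset.prod_congr rfl fun ω _ => ?_
  show (W D (g.left (g.right • ω))⁻¹ * WL D (v (g.right • ω)) * W D (g.left (g.right • ω)))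
    (A (g.right⁻¹ • g.right • ω)) (B (g.right⁻¹ • g.right • ω)) = _
  rw [inv_smul_smul]

private theorem conj_tens_left (g : Wr H P Ω) (h : Ω → H) (ω : Ω) :
    (g⁻¹ * SemidirectProduct.inl h * g).left ω =
      (g.left (g.right • ω))⁻¹ * h (g.right • ω) * g.left (g.right • ω) := by
  have h1 : (g⁻¹ * SemidirectProduct.inl h * g).left ω =
      (g.left ((g.right⁻¹)⁻¹ • ω))⁻¹ * h ((g.right⁻¹)⁻¹ • ω) * g.left ((g.right⁻¹ * 1)⁻¹ • ω) := rfl
  rw [h1, mul_one, inv_inv]

private theorem conj_tens_right (g : Wr H P Ω) (h : Ω → H) :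
    (g⁻¹ * SemidirectProduct.inl h * g).right = 1 := by
  rw [SemidirectProduct.mul_right, SemidirectProduct.mul_right, SemidirectProduct.inv_right,
    SemidirectProduct.right_inl, mul_one, inv_mul_cancel]

private theorem conj_tens_rm (D : IrrData k H r d) (f : Ω → Fin r) (g : Wr H P Ω) (h : Ω → H)
    (a b : It d f) :
    Rm D f (g⁻¹ * SemidirectProduct.inl h * g) a b =
      ∏ ω, (W D (g.left ω)⁻¹ * WL D (single (h ω) 1) * W D (g.left ω))
        (a.1 (g.right⁻¹ • ω)) (b.1 (g.right⁻¹ • ω)) := by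
  rw [conj_tens_re D g a.1 b.1 (fun ω => single (h ω) 1)]
  have h1 : Rm D f (g⁻¹ * SemidirectProduct.inl h * g) a b =
      ∏ ω, W D ((g⁻¹ * SemidirectProduct.inl h * g).left ω) (a.1 ω)
        (b.1 ((g⁻¹ * SemidirectProduct.inl h * g).right⁻¹ • ω)) := rfl
  rw [h1]
  refine Finset.prod_congr rfl fun ω _ => ?_
  have h2 : WL D (single (h (g.right • ω)) 1) = W D (h (g.right • ω)) := by
    rw [WL, MonoidAlgebra.lift_single, one_smul]
  rw [conj_tens_left, conj_tens_right, inv_one, one_smul, map_mul, map_mul, h2]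

/-- PROOF. `ht` with `Φ m = cj (NN H P Ω) (VV D f) g⁻¹ m a b` and `L ω v = (W D (g.left ω)⁻¹ * WL D v * W D (g.left ω)) (a.1 (g.right⁻¹ • ω)) (b.1 (g.right⁻¹ • ω))`. For `m = single n 1`, `n = inN h`: `cj (NN H P Ω) (VV D f) g⁻¹ (single n 1) = VV D f ⟨g⁻¹ * n * g, _⟩`
(exactly `h4` in the proof of `ind_diag`, Wpp/Cli.lean) `= Rm D f (g⁻¹ * inl h * g)`, and `g⁻¹ * inl h * g = inl (ω ↦ (g.left (g.right • ω))⁻¹ * h (g.right • ω) * g.left (g.right • ω))` (`SemidirectProduct.ext`, `act`), so the entry is `∏ ω, W D ((g.left (g.right • ω))⁻¹ * h (g.right • ω) * g.left (g.right • ω)) (a.1 ω) (b.1 ω)`;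
replacing `ω` by `g.right⁻¹ • ω` (`Fintype.prod_equiv (MulAction.toPerm _)`) it is `∏ ω, L ω (single (h ω) 1)` (`WL D (single x 1) = W D x`). At the end replace `ω` by `g.right • ω` again. -/
theorem conj_tens (D : IrrData k H r d) (f : Ω → Fin r) (g : Wr H P Ω) (u : Ω → MonoidAlgebra k H)
    (t : MonoidAlgebra k (NN H P Ω))
    (ht : ∀ (Φ : MonoidAlgebra k (NN H P Ω) →ₗ[k] k) (L : Ω → MonoidAlgebra k H →ₗ[k] k),
      (∀ h : Ω → H, Φ (single (inN H P Ω h) 1) = ∏ ω, L ω (single (h ω) 1)) → Φ t = ∏ ω, L ω (u ω))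
    (a b : It d f) :
    cj (NN H P Ω) (VV D f) g⁻¹ t a b =
      ∏ ω, (W D (g.left (g.right • ω))⁻¹ * WL D (u (g.right • ω)) * W D (g.left (g.right • ω))) (a.1 ω) (b.1 ω) := by
  have h1 := ht ((Matrix.entryLinearMap k k a b).comp (cj (NN H P Ω) (VV D f) g⁻¹).toLinearMap)
    (fun ω => (Matrix.entryLinearMap k k (a.1 (g.right⁻¹ • ω)) (b.1 (g.right⁻¹ • ω))).comp
      ((LinearMap.mulRight k (W D (g.left ω))).comp
        ((LinearMap.mulLeft k (W D (g.left ω)⁻¹)).comp (WL D).toLinearMap))) (by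
      intro h
      refine Eq.trans ?_ (conj_tens_rm D f g h a b)
      show cj (NN H P Ω) (VV D f) g⁻¹ (single (inN H P Ω h) 1) a b = _
      have hmemN : g⁻¹ * ((inN H P Ω h : NN H P Ω) : Wr H P Ω) * g ∈ NN H P Ω := by
        have h2 := (inferInstance : (NN H P Ω).Normal).conj_mem _ (inN H P Ω h).2 g⁻¹
        rwa [inv_inv] at h2
      have h4 : cj (NN H P Ω) (VV D f) g⁻¹ (single (inN H P Ω h) 1) =
          VV D f ⟨g⁻¹ * ((inN H P Ω h : NN H P Ω) : Wr H P Ω) * g, hmemN⟩ := by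
        show MonoidAlgebra.lift k (Matrix (It d f) (It d f) k) (NN H P Ω) (VV D f)
          (conjN (k := k) (NN H P Ω) g⁻¹ (single (inN H P Ω h) 1)) = _
        simp only [conjN, MonoidAlgebra.domCongr_single]
        rw [MonoidAlgebra.lift_single, one_smul]
        congr 1
        apply Subtype.ext
        show g⁻¹ * ((inN H P Ω h : NN H P Ω) : Wr H P Ω) * (g⁻¹)⁻¹ = _
        rw [inv_inv]
      rw [h4, VV_apply]
      rfl)
  refine Eq.trans ?_ (h1.trans ?_)
  · rfl
  · exact conj_tens_re D g a.1 b.1 u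
-- END conj_tens

-- BEGIN sep
/-- PROOF. `tens` with `u ω = D.e (F ω)`; `conj_tens`, `e_comm`, `WL_e`: the entry `(a, b)` is `∏ ω, [a ω = b ω ∧ (a ω).1 = F (g.right ω)]` with `(a ω).1 = f ω`. -/
theorem sep [Finite H] (D : IrrData k H r d) (F : Ω → Fin r) : ∃ t : MonoidAlgebra k (NN H P Ω),
    ∀ (f : Ω → Fin r) (g : Wr H P Ω), cj (NN H P Ω) (VV D f) g⁻¹ t =
      if (∀ ω, F (g.right • ω) = f ω) then 1 else 0 := by
  obtain ⟨t, ht⟩ := tens (P := P) (k := k) (H := H) (fun ω => D.e (F ω))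
  refine ⟨t, fun f g => ?_⟩
  ext a b
  rw [conj_tens D f g (fun ω => D.e (F ω)) t ht a b]
  have h1 : ∀ ω, (W D (g.left (g.right • ω))⁻¹ * WL D (D.e (F (g.right • ω))) *
      W D (g.left (g.right • ω))) (a.1 ω) (b.1 ω) =
      if a.1 ω = b.1 ω ∧ (a.1 ω).1 = F (g.right • ω) then 1 else 0 := by
    intro ω
    rw [e_comm, WL_e]
  rw [Finset.prod_congr rfl (fun ω _ => h1 ω)]
  by_cases hF : ∀ ω, F (g.right • ω) = f ω
  · rw [if_pos hF, Matrix.one_apply]
    by_cases hab : a = b
    · rw [if_pos hab]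
      refine Finset.prod_eq_one fun ω _ => if_pos ⟨by rw [hab], (a.2 ω).trans (hF ω).symm⟩
    · rw [if_neg hab]
      have hne : ∃ ω, a.1 ω ≠ b.1 ω := by
        by_contra hcon
        push Not at hcon
        exact hab (Subtype.ext (funext hcon))
      obtain ⟨ω, hω⟩ := hne
      exact Finset.prod_eq_zero (Finset.mem_univ ω) (if_neg fun h => hω h.1)
  · rw [if_neg hF, Matrix.zero_apply]
    push Not at hF
    obtain ⟨ω, hω⟩ := hF
    exact Finset.prod_eq_zero (Finset.mem_univ ω) (if_neg fun h => hω (h.2.symm.trans (a.2 ω)))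
-- END sep

-- BEGIN VV_span
private theorem VV_span_mem (D : IrrData k H r d) (f : Ω → Fin r) (x : Wr H P Ω)
    (t : MonoidAlgebra k (NN H P Ω)) : cj (NN H P Ω) (VV (P := P) D f) x t ∈
      Submodule.span k (Set.range (VV (P := P) D f)) := by
  induction t using MonoidAlgebra.induction_linear with
  | zero => rw [map_zero]; exact Submodule.zero_mem _
  | add a b ha hb => rw [map_add]; exact Submodule.add_mem _ ha hb
  | single n c =>
    have h1 : (conjN (k := k) (NN H P Ω) x) (single n c) = single (MulAut.conjNormal x n) c := by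
      simp only [conjN, MonoidAlgebra.domCongr_single]
    have h2 : cj (NN H P Ω) (VV (P := P) D f) x (single n c) =
        MonoidAlgebra.lift k (Matrix (It d f) (It d f) k) (NN H P Ω) (VV (P := P) D f)
          ((conjN (k := k) (NN H P Ω) x) (single n c)) := rfl
    rw [h2, h1, MonoidAlgebra.lift_single]
    exact Submodule.smul_mem _ _ (Submodule.subset_span ⟨_, rfl⟩)

/-- PROOF. By `tens` and `conj_tens` (with `g = 1`: `cj .. 1⁻¹ t = lift (VV D f) t`, `W D 1 = 1`) and `unit_exists` (with `j = a₀ ω`, `j' = b₀ ω`) there is `t` with `lift (VV D f) t = Matrix.single a₀ b₀ 1`; the range of `lift (VV D f)` is contained in the span of the range of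
`VV D f`; `Matrix.matrix_eq_sum_single`. -/
theorem VV_span [Finite H] (D : IrrData k H r d) (f : Ω → Fin r) :
    Submodule.span k (Set.range (VV (P := P) D f)) = ⊤ := by
  have key : ∀ a₀ b₀ : It d f, Matrix.single a₀ b₀ (1 : k) ∈
      Submodule.span k (Set.range (VV (P := P) D f)) := by
    intro a₀ b₀
    have hj : ∀ ω, (a₀.1 ω).1 = (b₀.1 ω).1 := fun ω => by rw [a₀.2 ω, b₀.2 ω]
    choose u hu using fun ω => unit_exists D (a₀.1 ω) (b₀.1 ω) (hj ω)
    obtain ⟨t, ht⟩ := tens (P := P) u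
    have h1 : cj (NN H P Ω) (VV (P := P) D f) (1 : Wr H P Ω)⁻¹ t = Matrix.single a₀ b₀ (1 : k) := by
      ext a b
      rw [conj_tens D f 1 u t ht a b]
      have h2 : ∀ ω : Ω, (W D ((1 : Wr H P Ω).left ((1 : Wr H P Ω).right • ω))⁻¹ *
          WL D (u ((1 : Wr H P Ω).right • ω)) *
          W D ((1 : Wr H P Ω).left ((1 : Wr H P Ω).right • ω))) (a.1 ω) (b.1 ω) =
          if a.1 ω = a₀.1 ω ∧ b.1 ω = b₀.1 ω then 1 else 0 := by
        intro ω
        have h3 : (1 : Wr H P Ω).left ((1 : Wr H P Ω).right • ω) = 1 := rfl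
        have h4 : (1 : Wr H P Ω).right • ω = ω := one_smul _ _
        rw [h3, h4, inv_one, map_one, one_mul, mul_one]
        exact hu ω _ _
      rw [Finset.prod_congr rfl fun ω _ => h2 ω, Matrix.single_apply]
      by_cases hab : a = a₀ ∧ b = b₀
      · obtain ⟨rfl, rfl⟩ := hab
        rw [if_pos ⟨rfl, rfl⟩]
        exact Finset.prod_eq_one fun ω _ => if_pos ⟨rfl, rfl⟩
      · rw [if_neg (fun h => hab ⟨h.1.symm, h.2.symm⟩)]
        have h5 : ∃ ω, ¬ (a.1 ω = a₀.1 ω ∧ b.1 ω = b₀.1 ω) := by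
          by_contra hcon
          push Not at hcon
          exact hab ⟨Subtype.ext (funext fun ω => (hcon ω).1), Subtype.ext (funext fun ω => (hcon ω).2)⟩
        obtain ⟨ω, hω⟩ := h5
        exact Finset.prod_eq_zero (Finset.mem_univ ω) (if_neg hω)
    rw [← h1]
    exact VV_span_mem D f _ t
  rw [eq_top_iff]
  intro M _
  rw [Matrix.matrix_eq_sum_single M]
  refine Submodule.sum_mem _ fun i _ => Submodule.sum_mem _ fun j _ => ?_
  have h6 : Matrix.single i j (M i j) = M i j • Matrix.single i j (1 : k) := by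
    rw [Matrix.smul_single, smul_eq_mul, mul_one]
  rw [h6]
  exact Submodule.smul_mem _ _ (key i j)
-- END VV_span

-- BEGIN card_It
/-- PROOF. `It d f ≃ ∀ ω, Fin (d (f ω))`. -/
theorem card_It (d : Fin r → ℕ) (f : Ω → Fin r) : Fintype.card (It d f) = ∏ ω, d (f ω) := by
  classical
  obtain ⟨φ, hb⟩ : ∃ φ : (∀ ω, Fin (d (f ω))) → It d f, Function.Bijective φ := by
    refine ⟨fun g => ⟨fun ω => ⟨f ω, g ω⟩, fun _ => rfl⟩, ?_, ?_⟩
    · intro g g' h
      funext ω
      have h1 := congrFun (congrArg Subtype.val h) ω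
      exact eq_of_heq (Sigma.mk.inj h1).2
    · intro a
      have h1 : ∀ ω, ∃ x : Fin (d (f ω)), (⟨f ω, x⟩ : Σ i, Fin (d i)) = a.1 ω := by
        intro ω
        have h2 := a.2 ω
        generalize a.1 ω = s at h2 ⊢
        obtain ⟨i, x⟩ := s
        simp only at h2
        subst h2
        exact ⟨x, rfl⟩
      choose g hg using h1
      exact ⟨g, Subtype.ext (funext hg)⟩
  rw [← Fintype.card_of_bijective hb, Fintype.card_pi]
  exact Finset.prod_congr rfl fun ω _ => Fintype.card_fin _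
-- END card_It

-- BEGIN TT_index
/-- PROOF. `Subgroup.index_comap_of_surjective`, `SemidirectProduct.rightHom_surjective`. -/
theorem TT_index (f : Ω → Fin r) : (TT (P := P) H f).index = (stab (P := P) f).index :=
  Subgroup.index_comap_of_surjective _ SemidirectProduct.rightHom_surjective
-- END TT_index

-- BEGIN TT_quot
/-- PROOF. `TT H f → stab f`, `g ↦ g.right`, is a surjective homomorphism (`inr p` is a preimage) with kernel `(NN H P Ω).subgroupOf (TT H f)`; first isomorphism theorem, `ssDim_congr` (Wil/Rel.lean). See `quot_iso` in Wil/Wreath.lean. -/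
theorem TT_quot [Finite H] [Finite P] (f : Ω → Fin r) :
    ssDim k (TT (P := P) H f ⧸ (NN H P Ω).subgroupOf (TT H f)) = ssDim k (stab (P := P) f) := by
  classical
  have fG : Finite (Wr H P Ω) :=
    Finite.of_equiv _ (SemidirectProduct.equivProd (φ := act H P Ω)).symm
  let π : TT (P := P) H f →* stab (P := P) f :=
    { toFun := fun g => ⟨(g : Wr H P Ω).right, g.2⟩
      map_one' := rfl
      map_mul' := fun _ _ => rfl }
  have hπ : Function.Surjective π := by
    intro p
    refine ⟨⟨SemidirectProduct.inr (p : P), ?_⟩, ?_⟩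
    · change SemidirectProduct.rightHom (SemidirectProduct.inr (p : P)) ∈ stab f
      rw [SemidirectProduct.rightHom_inr]
      exact p.2
    · apply Subtype.ext
      rfl
  have hker : π.ker = (NN H P Ω).subgroupOf (TT H f) := by
    ext g
    rw [MonoidHom.mem_ker, Subgroup.mem_subgroupOf, MonoidHom.mem_ker]
    constructor
    · intro h
      exact congrArg Subtype.val h
    · intro h
      exact Subtype.ext h
  exact ssDim_congr ((QuotientGroup.quotientMulEquivOfEq hker.symm).trans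
    (QuotientGroup.quotientKerEquivOfSurjective π hπ))
-- END TT_quot

end wr

end Pool.Agent.Wrc
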