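import Pool.Agent.Wrc.Cl
import Pool.Agent.Wrc.Rp

/-! The bound for wreath products. -/

set_option autoImplicit false

namespace Pool.Agent.Wrc

open MonoidAlgebra Pool.Agent.Wil Pool.Agent.Wnx Pool.Agent.Wpp

-- BEGIN orbits
/-- PROOF. `P` acts on `Ω → C` by `(p f) ω = f (p⁻¹ ω)` (`arrowAction`, use `letI`). `X = MulAction.orbitRel.Quotient P (Ω → C)`, `rep = Quotient.out`. `MulAction.stabilizer P f = stab f`. `MulAction.selfEquivSigmaOrbits'` or `Finset.sum` over the fibres of `Quotient.mk`: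
`∑ f, w f = ∑ x, ∑ f in the orbit x, w f = ∑ x, card (orbit x) * w (rep x)` as `w` is constant on orbits, `card (orbit) = index of the stabilizer` (`MulAction.index_stabilizer`). -/
theorem orbits {P Ω C : Type} [Group P] [Finite P] [MulAction P Ω] [Fintype Ω] [DecidableEq Ω] [Fintype C] [DecidableEq C]
    (w : (Ω → C) → ℕ) (hw : ∀ (p : P) (f : Ω → C), w (fun ω => f (p • ω)) = w f) :
    ∃ (X : Type) (_ : Fintype X) (rep : X → Ω → C),
      (∀ (x y : X) (p : P), (∀ ω, rep x (p • ω) = rep y ω) → x = y) ∧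
      ∑ x, (stab (P := P) (rep x)).index * w (rep x) = ∑ f, w f := by
  classical
  let hact : MulAction P (Ω → C) := arrowAction
  have hsm : ∀ (p : P) (f : Ω → C) (ω : Ω), (p • f) ω = f (p⁻¹ • ω) := fun _ _ _ => rfl
  let hX : Fintype (MulAction.orbitRel.Quotient P (Ω → C)) := Fintype.ofFinite _
  have hmk : ∀ f g : Ω → C, (Quotient.mk (MulAction.orbitRel P (Ω → C)) f =
      Quotient.mk (MulAction.orbitRel P (Ω → C)) g) ↔ f ∈ MulAction.orbit P g := by
    intro f g
    rw [Quotient.eq]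
    exact MulAction.orbitRel_apply
  have hst : ∀ f : Ω → C, MulAction.stabilizer P f = stab (P := P) f := by
    intro f
    ext p
    rw [MulAction.mem_stabilizer_iff, mem_stab]
    constructor
    · intro h ω
      have h1 := congrFun h (p • ω)
      rw [hsm, inv_smul_smul] at h1
      exact h1.symm
    · intro h
      funext ω
      rw [hsm, ← h (p⁻¹ • ω), smul_inv_smul]
  refine ⟨MulAction.orbitRel.Quotient P (Ω → C), hX, fun x => Quotient.out x, ?_, ?_⟩
  · intro x y p h
    rw [← Quotient.out_eq x, ← Quotient.out_eq y, hmk]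
    refine ⟨p, ?_⟩
    funext ω
    have h2 := h (p⁻¹ • ω)
    rw [smul_inv_smul] at h2
    change (p • Quotient.out y) ω = Quotient.out x ω
    rw [hsm]
    exact h2.symm
  · rw [← Finset.sum_fiberwise Finset.univ
      (fun f : Ω → C => (Quotient.mk (MulAction.orbitRel P (Ω → C)) f :
        MulAction.orbitRel.Quotient P (Ω → C))) w]
    refine Finset.sum_congr rfl fun x _ => ?_
    have h1 : ∀ f ∈ Finset.univ.filter (fun f : Ω → C =>
        (Quotient.mk (MulAction.orbitRel P (Ω → C)) f :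
          MulAction.orbitRel.Quotient P (Ω → C)) = x), w f = w (Quotient.out x) := by
      intro f hf
      have h2 := (Finset.mem_filter.1 hf).2
      rw [← Quotient.out_eq x, hmk] at h2
      obtain ⟨p, hp⟩ := h2
      have h3 : f = fun ω => Quotient.out x (p⁻¹ • ω) := by
        rw [← hp]
        rfl
      rw [h3]
      exact hw p⁻¹ (Quotient.out x)
    rw [Finset.sum_congr rfl h1, Finset.sum_const, smul_eq_mul]
    congr 1
    rw [← hst, MulAction.index_stabilizer, ← Set.ncard_coe_finset]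
    congr 1
    ext f
    rw [Finset.coe_filter, Set.mem_ofPred_eq]
    rw [← hmk, Quotient.out_eq]
    simp
-- END orbits

-- BEGIN pp_index
theorem pp_index (p : ℕ) {P : Type} [Group P] [Finite P] (S : Subgroup P) :
    pPrimePart p (Nat.card P) ≤ S.index * pPrimePart p (Nat.card S) := by
  have h1 : S.index * Nat.card S = Nat.card P := by rw [mul_comm]; exact S.card_mul_index
  rw [← h1, pPrimePart_mul]
  exact Nat.mul_le_mul_right _ (pPrimePart_le p _)

theorem pp_pow (p a n : ℕ) : pPrimePart p (a ^ n) = pPrimePart p a ^ n := by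
  induction n with
  | zero => simp [pPrimePart]
  | succ n ih => rw [pow_succ, pPrimePart_mul, ih, pow_succ]

theorem card_wr (H P Ω : Type) [Group H] [Group P] [MulAction P Ω] [Finite Ω] :
    Nat.card (Wr H P Ω) = Nat.card P * Nat.card H ^ Nat.card Ω := by
  have : Fintype Ω := Fintype.ofFinite Ω
  rw [Nat.card_congr (SemidirectProduct.equivProd (φ := act H P Ω)), Nat.card_prod, Nat.card_pi, mul_comm,
    Finset.prod_const, Finset.card_univ, Nat.card_eq_fintype_card (α := Ω)]

theorem wr_will (p : ℕ) (k H P Ω : Type) [Field k] [Group H] [Group P] [MulAction P Ω] [Finite Ω]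
    (h : pPrimePart p (Nat.card P) * ssDim k H ^ Nat.card Ω ≤ ssDim k (Wr H P Ω))
    (hH : pPrimePart p (Nat.card H) ≤ ssDim k H) :
    pPrimePart p (Nat.card (Wr H P Ω)) ≤ ssDim k (Wr H P Ω) := by
  rw [card_wr, pPrimePart_mul, pp_pow]
  exact (Nat.mul_le_mul_left _ (Nat.pow_le_pow_left hH _)).trans h
-- END pp_index

-- BEGIN wr_closed
private theorem wr_closed_stab {P Ω : Type} [Group P] [MulAction P Ω] {r : ℕ} (f : Ω → Fin r) :
    stab (P := P) f = stab (P := P) (fun ω => (f ω : ℕ)) := by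
  ext p
  rw [mem_stab, mem_stab]
  exact forall_congr' fun ω => Fin.ext_iff

private theorem wr_closed_sum {Ω : Type} [Fintype Ω] [DecidableEq Ω] {r : ℕ} (d : Fin r → ℕ) :
    ∑ f : Ω → Fin r, (∏ ω, d (f ω)) ^ 2 = (∑ i, d i ^ 2) ^ Fintype.card Ω := by
  have h := Finset.prod_univ_sum (fun _ : Ω => (Finset.univ : Finset (Fin r))) (fun _ i => d i ^ 2)
  rw [Finset.prod_const, Fintype.piFinset_univ, Finset.card_univ] at h
  rw [h]
  exact Finset.sum_congr rfl fun f _ => (Finset.prod_pow Finset.univ 2 (fun ω => d (f ω))).symm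

private theorem wr_closed_key (k H P Ω : Type) [Field k] [Group H] [Finite H] [Group P] [Finite P]
    [MulAction P Ω] [Fintype Ω] [DecidableEq Ω] {r : ℕ} {d : Fin r → ℕ} (D : IrrData k H r d)
    (X : Type) [Fintype X] (rep : X → Ω → Fin r)
    (hrep : ∀ (x y : X) (p : P), (∀ ω, rep x (p • ω) = rep y ω) → x = y) :
    ∑ x, (stab (P := P) (rep x)).index ^ 2 * ((∏ ω, d (rep x ω)) ^ 2 * ssDim k (stab (P := P) (rep x))) ≤
      ssDim k (Wr H P Ω) := by
  have hfin : Finite (Wr H P Ω) := Finite.of_equiv _ (SemidirectProduct.equivProd (φ := act H P Ω)).symm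
  choose t ht using fun F : Ω → Fin r => sep (P := P) D F
  have key := multi_bound (k := k) (G := Wr H P Ω) (NN H P Ω) (fun x : X => TT H (rep x))
    (fun x => NN_le_TT (rep x)) (fun x => It d (rep x))
    (fun x => VV D (rep x)) (fun x => RR D (rep x)) (fun x n h => rfl) (fun x => VV_span D (rep x))
    (fun x g => t (fun ω => rep x (g.right⁻¹ • ω)))
    (fun x g => by
      rw [ht, if_pos]
      intro ω
      rw [inv_smul_smul])
    (fun x g y g' hxy => by
      rw [ht, if_neg]
      intro h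
      have h1 : ∀ ω, rep x ((g.right⁻¹ * g'.right) • ω) = rep y ω := fun ω => by
        rw [mul_smul]
        exact h ω
      have h2 : x = y := hrep x y _ h1
      refine hxy ⟨h2, ?_⟩
      subst h2
      have h3 : (SemidirectProduct.rightHom : Wr H P Ω →* P) (g⁻¹ * g') = g.right⁻¹ * g'.right := by
        rw [map_mul, map_inv]
        rfl
      rw [TT, Subgroup.mem_comap, h3]
      exact h1)
  refine le_trans (le_of_eq (Finset.sum_congr rfl fun x _ => ?_)) key
  rw [TT_index, card_It, TT_quot]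

/-- PROOF. `irr_exists`: `D : IrrData k H r d`. `orbits` with `C = Fin r`, `w f = (∏ ω, d (f ω)) ^ 2` (invariant: `Fintype.prod_equiv (MulAction.toPerm p)`). `multi_bound` with `G = Wr H P Ω`, `N = NN H P Ω`, `T x = TT H (rep x)`, `ι x = It d (rep x)`, `V x = VV D (rep x)`, `ρ x = RR D (rep x)`, `hV` = `VV_span`,
`b x g` = the `t` of `sep` for `F ω = rep x (g.right⁻¹ • ω)`: `h1`: `F (g.right ω) = rep x ω`; `h0`: if `F (g'.right ω) = rep y ω` for all `ω` then `rep x ((g.right⁻¹ * g'.right) • ω) = rep y ω`, so `x = y` and `g.right⁻¹ * g'.right ∈ stab (rep x)`, i.e. `g⁻¹ * g' ∈ TT H (rep x)`.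
With `TT_index`, `card_It`, `TT_quot`: `∑ x, index ^ 2 * ((∏ ω, d (rep x ω)) ^ 2 * ssDim k (stab (rep x))) ≤ ssDim k (Wr H P Ω)`. By `hP` (the colouring `ω ↦ (rep x ω : ℕ)` has the same stabiliser) and `pp_index` each term is at least `pPrimePart p |P| * (index * w (rep x))`, the sum is
`pPrimePart p |P| * ∑ f, ∏ ω, d (f ω) ^ 2 = pPrimePart p |P| * (∑ i, d i ^ 2) ^ card Ω` (`Finset.prod_univ_sum`, `Fintype.piFinset_univ`), `D.sum`. `Finite (Wr H P Ω)`: `SemidirectProduct.equivProd`. -/
theorem wr_closed (p : ℕ) (k H P Ω : Type) [Field k] [IsAlgClosed k] [Group H] [Finite H] [Group P] [Finite P]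
    [MulAction P Ω] [Fintype Ω] [DecidableEq Ω]
    (hP : ∀ f : Ω → ℕ, pPrimePart p (Nat.card (stab (P := P) f)) ≤ ssDim k (stab (P := P) f)) :
    pPrimePart p (Nat.card P) * ssDim k H ^ Fintype.card Ω ≤ ssDim k (Wr H P Ω) := by
  obtain ⟨r, d, ⟨D⟩⟩ := irr_exists k H
  obtain ⟨X, hX, rep, hrep, hsum⟩ := orbits (P := P) (fun f : Ω → Fin r => (∏ ω, d (f ω)) ^ 2) (fun q f => by
    have h : ∏ ω, d (f (q • ω)) = ∏ ω, d (f ω) :=
      Fintype.prod_equiv (MulAction.toPerm q) _ _ (fun ω => rfl)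
    simp only [h])
  refine le_trans ?_ (wr_closed_key k H P Ω D X rep hrep)
  rw [← D.sum, ← wr_closed_sum d, ← hsum, Finset.mul_sum]
  refine Finset.sum_le_sum fun x _ => ?_
  have h1 := pp_index p (stab (P := P) (rep x))
  have h2 := hP (fun ω => (rep x ω : ℕ))
  rw [← wr_closed_stab (P := P) (rep x)] at h2
  calc pPrimePart p (Nat.card P) * ((stab (P := P) (rep x)).index * (∏ ω, d (rep x ω)) ^ 2)
      ≤ ((stab (P := P) (rep x)).index * ssDim k (stab (P := P) (rep x))) *
          ((stab (P := P) (rep x)).index * (∏ ω, d (rep x ω)) ^ 2) :=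
        Nat.mul_le_mul_right _ (h1.trans (Nat.mul_le_mul_left _ h2))
    _ = (stab (P := P) (rep x)).index ^ 2 * ((∏ ω, d (rep x ω)) ^ 2 * ssDim k (stab (P := P) (rep x))) := by
        ring
-- END wr_closed

end Pool.Agent.Wrc
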